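import Pool.Agent.V7.BE.Defs

/-!
# V7, block BETA, module Ctr: contraction in one slot

`Dk i y G` is the contraction of `G` with the vector `y` in the slot `i`, considered as a tensor
which does not depend on the slot `i`.
-/

namespace Pool.Agent.V7

open Finset

variable {ι : Type} [Fintype ι] [DecidableEq ι] {c : ℕ}

/-- Contraction with `y` in the slot `i`. -/
noncomputable def Dk (i : ι) (y : Fin c → ℂ) : ((ι → Fin c) → ℂ) →ₗ[ℂ] ((ι → Fin c) → ℂ) where
  toFun G e := ∑ b, y b * G (Function.update e i b)
  map_add' G H := by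
    funext e
    simp only [Pi.add_apply, mul_add, sum_add_distrib]
  map_smul' x G := by
    funext e
    simp only [Pi.smul_apply, smul_eq_mul, RingHom.id_apply, mul_sum]
    refine sum_congr rfl fun b _ => ?_
    ring

theorem Dk_apply (i : ι) (y : Fin c → ℂ) (G : (ι → Fin c) → ℂ) (e : ι → Fin c) :
    Dk i y G e = ∑ b, y b * G (Function.update e i b) := rfl

theorem ctr_eq (S : Finset ι) (y : ι × Fin c → ℂ) (F : (ι → Fin c) → ℂ) (w : ι → Fin c) :
    ctr S y F w = ∑ e ∈ univ.filter (fun e : ι → Fin c => ∀ j, j ∉ S → e j = w j),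
      (∏ j ∈ S, y (j, e j)) * F e := by
  unfold ctr
  rw [sum_filter]

/-- The contraction as a linear map. -/
noncomputable def ctrL (S : Finset ι) (y : ι × Fin c → ℂ) :
    ((ι → Fin c) → ℂ) →ₗ[ℂ] ((ι → Fin c) → ℂ) where
  toFun F w := ctr S y F w
  map_add' F G := by
    funext w
    simp only [ctr_eq, Pi.add_apply, mul_add, sum_add_distrib]
  map_smul' x F := by
    funext w
    simp only [ctr_eq, Pi.smul_apply, smul_eq_mul, RingHom.id_apply, mul_sum]
    refine sum_congr rfl fun b _ => ?_
    ring

theorem ctrL_apply (S : Finset ι) (y : ι × Fin c → ℂ) (F : (ι → Fin c) → ℂ) (w : ι → Fin c) :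
    ctrL S y F w = ctr S y F w := rfl

/-- Contraction in a further slot commutes with `ctr S`. -/
theorem ctr_Dk {S : Finset ι} {i : ι} (hi : i ∉ S) (q : ι × Fin c → ℂ) (y : Fin c → ℂ)
    (G : (ι → Fin c) → ℂ) (w : ι → Fin c) :
    ctr S q (Dk i y G) w = Dk i y (fun w => ctr S q G w) w := by
  rw [Dk_apply]
  have h1 : ctr S q (Dk i y G) w = ∑ b, y b *
      ∑ e ∈ univ.filter (fun e : ι → Fin c => ∀ j, j ∉ S → e j = w j),
        (∏ j ∈ S, q (j, e j)) * G (Function.update e i b) := by
    rw [ctr_eq]
    simp only [Dk_apply, mul_sum]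
    rw [sum_comm]
    refine sum_congr rfl fun b _ => sum_congr rfl fun e _ => ?_
    ring
  rw [h1]
  refine sum_congr rfl fun b _ => ?_
  rw [ctr_eq]
  congr 1
  refine sum_nbij' (fun e => Function.update e i b) (fun e => Function.update e i (w i)) ?_ ?_ ?_ ?_ ?_
  · intro e he
    rw [mem_filter] at he ⊢
    refine ⟨mem_univ _, fun j hj => ?_⟩
    by_cases hji : j = i
    · subst hji
      simp
    · rw [Function.update_of_ne hji, Function.update_of_ne hji]
      exact he.2 j hj
  · intro e he
    rw [mem_filter] at he ⊢
    refine ⟨mem_univ _, fun j hj => ?_⟩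
    by_cases hji : j = i
    · subst hji
      simp
    · rw [Function.update_of_ne hji]
      have := he.2 j hj
      rwa [Function.update_of_ne hji] at this
  · intro e he
    rw [mem_filter] at he
    rw [Function.update_idem]
    rw [← he.2 i hi]
    exact Function.update_eq_self i e
  · intro e he
    rw [mem_filter] at he
    rw [Function.update_idem]
    have := he.2 i hi
    rw [Function.update_self] at this
    rw [← this]
    exact Function.update_eq_self i e
  · intro e _
    congr 1
    refine prod_congr rfl fun j hj => ?_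
    rw [Function.update_of_ne]
    rintro rfl
    exact hi hj

/-- Splitting off one slot. -/
theorem ctr_erase {S : Finset ι} {i : ι} (hi : i ∈ S) (q : ι × Fin c → ℂ)
    (G : (ι → Fin c) → ℂ) (w : ι → Fin c) :
    ctr S q G w = ctr (S.erase i) q (Dk i (fun b => q (i, b)) G) w := by
  rw [ctr_eq, ctr_eq]
  simp only [Dk_apply, mul_sum]
  rw [← sum_product']
  refine sum_nbij' (fun e => (Function.update e i (w i), e i)) (fun x => Function.update x.1 i x.2)
    ?_ ?_ ?_ ?_ ?_
  · intro e he
    rw [mem_filter] at he
    rw [mem_product, mem_filter]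
    refine ⟨⟨mem_univ _, fun j hj => ?_⟩, mem_univ _⟩
    by_cases hji : j = i
    · subst hji
      simp
    · simp only
      rw [Function.update_of_ne hji]
      exact he.2 j fun h => hj (mem_erase.2 ⟨hji, h⟩)
  · rintro ⟨e, b⟩ he
    rw [mem_product, mem_filter] at he
    rw [mem_filter]
    refine ⟨mem_univ _, fun j hj => ?_⟩
    have hji : j ≠ i := by
      rintro rfl
      exact hj hi
    simp only
    rw [Function.update_of_ne hji]
    exact he.1.2 j fun h => hj (mem_of_mem_erase h)
  · intro e _
    simp only
    rw [Function.update_idem]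
    exact Function.update_eq_self i e
  · rintro ⟨e, b⟩ he
    rw [mem_product, mem_filter] at he
    simp only
    rw [Function.update_idem, Function.update_self]
    congr 1
    have := he.1.2 i (notMem_erase i S)
    rw [← this]
    exact Function.update_eq_self i e
  · intro e _
    simp only
    rw [Function.update_idem, Function.update_eq_self i e, ← mul_prod_erase S _ hi]
    have : ∏ x ∈ S.erase i, q (x, Function.update e i (w i) x) = ∏ x ∈ S.erase i, q (x, e x) := by
      refine prod_congr rfl fun j hj => ?_
      rw [Function.update_of_ne (ne_of_mem_erase hj)]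
    rw [this]
    ring

/-- A tensor which does not depend on the slot `i`. -/
theorem Dk_update (i : ι) (y : Fin c → ℂ) (G : (ι → Fin c) → ℂ) (e : ι → Fin c) (b : Fin c) :
    Dk i y G (Function.update e i b) = Dk i y G e := by
  rw [Dk_apply, Dk_apply]
  refine sum_congr rfl fun b' _ => ?_
  rw [Function.update_idem]

end Pool.Agent.V7
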