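import Pool.Agent.V7.Defs
import Pool.Agent.V7.BE.Ctr

/-!
# V7, block BETA, module Geo: squarefree exponents and contractions

`vr : (Fin k ⊕ Fin q) × Fin c → ν` numbers the variables of the first `k` blocks and of `q` blocks of
`z`-variables.  `mn vr α w` is the exponent with one variable in each of the first `k` blocks and in the
blocks `α 0, …, α (M - 1)`.
-/

set_option autoImplicit false
set_option linter.unusedSectionVars false

namespace Pool.Agent.V7.BE

open Finset Pool.Agent.V7 Pool.Agent.H54.V7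
open Pool.Agent.H18.Ex (tcr)

section

variable {ν : Type} [Fintype ν] [DecidableEq ν]

/-- The indicator function of a finite set, as an exponent. -/
def ind (A : Finset ν) : ν → ℕ := fun s => if s ∈ A then 1 else 0

theorem sum_ind (A : Finset ν) : ∑ s, ind A s = A.card := by
  unfold ind
  rw [sum_ite_mem, univ_inter, sum_const, smul_eq_mul, mul_one]

theorem ind_inj {A B : Finset ν} (h : ind A = ind B) : A = B := by
  ext s
  have h1 := congrFun h s
  unfold ind at h1
  by_cases h2 : s ∈ A <;> by_cases h3 : s ∈ B <;> simp_all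

/-- Taylor coefficients of squarefree monomials. -/
theorem tcr_ind (P : ν → ℂ) (A B : Finset ν) :
    tcr P (ind A) (ind B) = if B ⊆ A then ∏ s ∈ A \ B, P s else 0 := by
  unfold tcr
  split_ifs with h
  · rw [← prod_sdiff (subset_univ (A \ B))]
    have h1 : ∏ s ∈ univ \ (A \ B),
        (((ind A s).choose (ind B s) : ℕ) : ℂ) * P s ^ (ind A s - ind B s) = 1 := by
      refine prod_eq_one fun s hs => ?_
      rw [mem_sdiff, mem_sdiff] at hs
      have h2 : s ∈ A → s ∈ B := by
        intro h3
        by_contra h4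
        exact hs.2 ⟨h3, h4⟩
      unfold ind
      by_cases h3 : s ∈ A
      · rw [if_pos h3, if_pos (h2 h3)]
        simp
      · have h4 : s ∉ B := fun h4 => h3 (h h4)
        rw [if_neg h3, if_neg h4]
        simp
    rw [h1, one_mul]
    refine prod_congr rfl fun s hs => ?_
    rw [mem_sdiff] at hs
    unfold ind
    rw [if_pos hs.1, if_neg hs.2]
    simp
  · rw [not_subset] at h
    obtain ⟨s, hs, hs'⟩ := h
    refine prod_eq_zero (mem_univ s) ?_
    unfold ind
    rw [if_neg hs', if_pos hs]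
    simp

theorem tcr_ind_ne {P : ν → ℂ} {A B : Finset ν} (h : tcr P (ind A) (ind B) ≠ 0) :
    B ⊆ A ∧ ∀ s ∈ A \ B, P s ≠ 0 := by
  rw [tcr_ind] at h
  split_ifs at h with h1
  · exact ⟨h1, fun s hs => (prod_ne_zero_iff.1 h) s hs⟩
  · exact absurd rfl h

end

variable {ν : Type} [Fintype ν] [DecidableEq ν] {k M c q : ℕ}

/-- The number of the block of a slot. -/
def bn : Fin k ⊕ Fin q → ℕ := Sum.elim (fun i => i.1) fun h => k + h.1

theorem bn_inj : Function.Injective (bn : Fin k ⊕ Fin q → ℕ) := by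
  rintro (i | h) (i' | h') e
  · exact congrArg Sum.inl (Fin.ext e)
  · exact absurd e (by show i.1 ≠ k + h'.1; omega)
  · exact absurd e (by show k + h.1 ≠ i'.1; omega)
  · have : k + h.1 = k + h'.1 := e
    exact congrArg Sum.inr (Fin.ext (by omega))

/-- The embedding of the slots given by `α`. -/
abbrev emα (k : ℕ) (α : Fin M ↪o Fin q) : Slot k M ↪ Fin k ⊕ Fin q :=
  (Function.Embedding.refl (Fin k)).sumMap α.toEmbedding

theorem emα_apply (α : Fin M ↪o Fin q) (x : Slot k M) : emα k α x = Sum.map id α x := by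
  rcases x with i | h <;> rfl

variable (vr : (Fin k ⊕ Fin q) × Fin c → ν)

/-- The variables `w x`, `x ∈ S`. -/
def pS (α : Fin M ↪o Fin q) (S : Finset (Slot k M)) (w : Slot k M → Fin c) : Finset ν :=
  S.image fun x => vr (emα k α x, w x)

/-- The squarefree exponents. -/
def mn (α : Fin M ↪o Fin q) (w : Slot k M → Fin c) : ν → ℕ := ind (pS vr α univ w)

variable {vr}

theorem mem_pS {α : Fin M ↪o Fin q} {S : Finset (Slot k M)} {w : Slot k M → Fin c} {s : ν} :
    s ∈ pS vr α S w ↔ ∃ x ∈ S, vr (emα k α x, w x) = s := by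
  unfold pS
  rw [mem_image]

theorem pS_injOn (hvr : Function.Injective vr) (α : Fin M ↪o Fin q) (w : Slot k M → Fin c) :
    Function.Injective fun x : Slot k M => vr (emα k α x, w x) := by
  intro x y h
  have h1 := hvr h
  exact (emα k α).injective (congrArg Prod.fst h1)

theorem card_pS (hvr : Function.Injective vr) (α : Fin M ↪o Fin q) (S : Finset (Slot k M))
    (w : Slot k M → Fin c) : (pS vr α S w).card = S.card :=
  card_image_of_injective _ (pS_injOn hvr α w)

theorem pS_sdiff (hvr : Function.Injective vr) (α : Fin M ↪o Fin q) (S : Finset (Slot k M))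
    (w : Slot k M → Fin c) : pS vr α univ w \ pS vr α Sᶜ w = pS vr α S w := by
  unfold pS
  rw [← image_sdiff _ _ (pS_injOn hvr α w)]
  congr 1
  rw [← compl_eq_univ_sdiff, compl_compl]

theorem range_eq {α α' : Fin M ↪o Fin q} (h : ∀ y, ∃ x, α x = α' y) : α' = α := by
  have h1 : ∀ y, α' y ∈ (univ : Finset (Fin M)).map α.toEmbedding := by
    intro y
    obtain ⟨x, hx⟩ := h y
    rw [mem_map]
    exact ⟨x, mem_univ x, hx⟩
  have h2 : (univ : Finset (Fin M)).map α'.toEmbedding ⊆ (univ : Finset (Fin M)).map α.toEmbedding := by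
    intro z hz
    rw [mem_map] at hz
    obtain ⟨y, _, rfl⟩ := hz
    exact h1 y
  have h3 : (univ : Finset (Fin M)).map α'.toEmbedding = (univ : Finset (Fin M)).map α.toEmbedding :=
    eq_of_subset_of_card_le h2 (by rw [card_map, card_map])
  have hc : ((univ : Finset (Fin M)).map α.toEmbedding).card = M := by
    rw [card_map, card_univ, Fintype.card_fin]
  have e1 : ∀ x, α x ∈ (univ : Finset (Fin M)).map α.toEmbedding := fun x =>
    mem_map_of_mem _ (mem_univ x)
  have e2 := Finset.orderEmbOfFin_unique' hc e1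
  have e3 := Finset.orderEmbOfFin_unique' hc h1
  exact e3.trans e2.symm

theorem mn_inj (hvr : Function.Injective vr) {α α' : Fin M ↪o Fin q} {w w' : Slot k M → Fin c}
    (h : mn vr α w = mn vr α' w') : α' = α ∧ w' = w := by
  have h1 : pS vr α univ w = pS vr α' univ w' := ind_inj h
  have h2 : ∀ y, ∃ x, emα k α x = emα k α' y ∧ w x = w' y := by
    intro y
    have h3 : vr (emα k α' y, w' y) ∈ pS vr α univ w := by
      rw [h1]
      exact mem_pS.2 ⟨y, mem_univ y, rfl⟩
    obtain ⟨x, _, hx⟩ := mem_pS.1 h3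
    have h4 := hvr hx
    exact ⟨x, congrArg Prod.fst h4, congrArg Prod.snd h4⟩
  have h3 : α' = α := by
    refine range_eq fun y => ?_
    obtain ⟨x, hx, _⟩ := h2 (Sum.inr y)
    rcases x with i | x
    · exact absurd hx Sum.inl_ne_inr
    · exact ⟨x, Sum.inr_injective hx⟩
  subst h3
  refine ⟨rfl, funext fun y => ?_⟩
  obtain ⟨x, hx, hx'⟩ := h2 y
  have hxy := (emα k α').injective hx
  subst hxy
  exact hx'.symm

/-- The key computation: on the forms with squarefree exponents of the types `mn`, the Taylor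
coefficients at a point supported on the slots of `S` are contractions. -/
theorem sum_tcr (hvr : Function.Injective vr) {A : Finset (ν → ℕ)} {f : {a // a ∈ A} → ℂ}
    (hA : ∀ (α : Fin M ↪o Fin q) (w : Slot k M → Fin c), mn vr α w ∈ A)
    (hf : ∀ e, f e ≠ 0 → ∃ (α : Fin M ↪o Fin q) (w : Slot k M → Fin c), e.1 = mn vr α w)
    (α : Fin M ↪o Fin q) (S : Finset (Slot k M)) (y : Slot k M × Fin c → ℂ) {P : ν → ℂ}
    (hP : ∀ x ∈ S, ∀ t, P (vr (emα k α x, t)) = y (x, t))
    (hP0 : ∀ s, P s ≠ 0 → ∃ x ∈ S, ∃ t, vr (emα k α x, t) = s) (w : Slot k M → Fin c) :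
    ∑ e : {a // a ∈ A}, f e * tcr P e.1 (ind (pS vr α Sᶜ w)) =
      ctr S y (fun w' => f ⟨mn vr α w', hA α w'⟩) w := by
  classical
  rw [ctr_eq]
  set F : Finset (Slot k M → Fin c) := univ.filter fun e => ∀ j, j ∉ S → e j = w j with hF
  have hinj : Function.Injective fun w' : Slot k M → Fin c => (⟨mn vr α w', hA α w'⟩ : {a // a ∈ A}) := by
    intro w₁ w₂ h
    exact ((mn_inj hvr (congrArg Subtype.val h)).2).symm
  have h1 : ∑ e ∈ F.image (fun w' : Slot k M → Fin c => (⟨mn vr α w', hA α w'⟩ : {a // a ∈ A})),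
      f e * tcr P e.1 (ind (pS vr α Sᶜ w)) =
      ∑ e : {a // a ∈ A}, f e * tcr P e.1 (ind (pS vr α Sᶜ w)) := by
    refine sum_subset (subset_univ _) fun e _ he => ?_
    by_contra hne
    have hfe : f e ≠ 0 := left_ne_zero_of_mul hne
    have hte := right_ne_zero_of_mul hne
    obtain ⟨α', w', hew⟩ := hf e hfe
    rw [hew] at hte
    obtain ⟨h2, h3⟩ := tcr_ind_ne hte
    -- every slot of `α'` is a slot of `α`
    have h4 : ∀ z, ∃ x, emα k α x = emα k α' z ∧ (x ∉ S → w x = w' z) := by
      intro z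
      by_cases hz : vr (emα k α' z, w' z) ∈ pS vr α Sᶜ w
      · obtain ⟨x, hx, hx'⟩ := mem_pS.1 hz
        have h5 := hvr hx'
        exact ⟨x, congrArg Prod.fst h5, fun _ => congrArg Prod.snd h5⟩
      · have h5 : vr (emα k α' z, w' z) ∈ pS vr α' univ w' \ pS vr α Sᶜ w := by
          rw [mem_sdiff]
          exact ⟨mem_pS.2 ⟨z, mem_univ z, rfl⟩, hz⟩
        obtain ⟨x, hx, t, hxt⟩ := hP0 _ (h3 _ h5)
        have h6 := hvr hxt
        exact ⟨x, congrArg Prod.fst h6, fun h7 => absurd hx h7⟩
    have h5 : α' = α := by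
      refine range_eq fun z => ?_
      obtain ⟨x, hx, _⟩ := h4 (Sum.inr z)
      rcases x with i | x
      · exact absurd hx Sum.inl_ne_inr
      · exact ⟨x, Sum.inr_injective hx⟩
    subst h5
    apply he
    rw [mem_image]
    refine ⟨w', ?_, Subtype.ext hew.symm⟩
    rw [hF, mem_filter]
    refine ⟨mem_univ _, fun j hj => ?_⟩
    obtain ⟨x, hx, hx'⟩ := h4 j
    have h6 := (emα k α').injective hx
    subst h6
    exact (hx' hj).symm
  rw [← h1, sum_image fun a _ b _ h => hinj h]
  refine sum_congr rfl fun w' hw' => ?_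
  rw [hF, mem_filter] at hw'
  have h2 : pS vr α Sᶜ w = pS vr α Sᶜ w' := by
    unfold pS
    refine image_congr fun x hx => ?_
    have hx' : x ∉ S := by
      intro h3
      have h4 : x ∈ Sᶜ := hx
      rw [mem_compl] at h4
      exact h4 h3
    show vr (emα k α x, w x) = vr (emα k α x, w' x)
    rw [hw'.2 x hx']
  rw [mul_comm]
  congr 1
  show tcr P (ind (pS vr α univ w')) (ind (pS vr α Sᶜ w)) = _
  rw [h2, tcr_ind, if_pos, pS_sdiff hvr]
  · unfold pS
    rw [prod_image fun a _ b _ h => pS_injOn hvr α w' h]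
    exact prod_congr rfl fun x hx => hP x hx _
  · unfold pS
    exact image_subset_image (subset_univ _)

/-- The contraction in one slot of `S` and then in the others. -/
theorem ctr_split {S : Finset (Slot k M)} {i : Slot k M} (hi : i ∈ S) (y : Slot k M × Fin c → ℂ)
    (G : (Slot k M → Fin c) → ℂ) (w : Slot k M → Fin c) :
    ctr S y G w = ∑ t, y (i, t) * ctr (S.erase i) y G (Function.update w i t) := by
  rw [ctr_erase hi, ctr_Dk (notMem_erase i S), Dk_apply]

/-- The contraction from the conditions of an ordinary point. -/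
theorem ctr_of_Fat (hvr : Function.Injective vr) {A : Finset (ν → ℕ)} {f : {a // a ∈ A} → ℂ}
    (hA : ∀ (α : Fin M ↪o Fin q) (w : Slot k M → Fin c), mn vr α w ∈ A)
    (hf : ∀ e, f e ≠ 0 → ∃ (α : Fin M ↪o Fin q) (w : Slot k M → Fin c), e.1 = mn vr α w)
    (hk : k < M) (α : Fin M ↪o Fin q) {S : Finset (Slot k M)} (hS : S.card = M)
    (y : Slot k M × Fin c → ℂ) {P : ν → ℂ}
    (hP : ∀ x ∈ S, ∀ t, P (vr (emα k α x, t)) = y (x, t))
    (hP0 : ∀ s, P s ≠ 0 → ∃ x ∈ S, ∃ t, vr (emα k α x, t) = s)
    (hfat : Fat (fun e : {a // a ∈ A} => e.1) M P f) (w : Slot k M → Fin c) :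
    ctr S y (fun w' => f ⟨mn vr α w', hA α w'⟩) w = 0 := by
  rw [← sum_tcr hvr hA hf α S y hP hP0 w]
  apply hfat
  rw [sum_ind, card_pS hvr, card_compl, hS, Fintype.card_sum, Fintype.card_fin, Fintype.card_fin]
  omega

/-- The contraction from the conditions of a swapped point. -/
theorem ctr_of_Sw (hvr : Function.Injective vr) {A : Finset (ν → ℕ)} {f : {a // a ∈ A} → ℂ}
    (hA : ∀ (α : Fin M ↪o Fin q) (w : Slot k M → Fin c), mn vr α w ∈ A)
    (hf : ∀ e, f e ≠ 0 → ∃ (α : Fin M ↪o Fin q) (w : Slot k M → Fin c), e.1 = mn vr α w)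
    (hk : k + 1 = M) (hM : 2 ≤ M) (α : Fin M ↪o Fin q) {S : Finset (Slot k M)} (hS : S.card = M)
    {i : Slot k M} (hi : i ∈ S) (y : Slot k M × Fin c → ℂ) {P V : ν → ℂ}
    (hP : ∀ x ∈ S.erase i, ∀ t, P (vr (emα k α x, t)) = y (x, t))
    (hP0 : ∀ s, P s ≠ 0 → ∃ x ∈ S.erase i, ∃ t, vr (emα k α x, t) = s)
    (hV : ∀ t, V (vr (emα k α i, t)) = y (i, t))
    (hV0 : ∀ s, V s ≠ 0 → ∃ t, vr (emα k α i, t) = s)
    {B : Finset ν} (hB : ∀ x, x ≠ i → ∀ t, vr (emα k α x, t) ∉ B)
    (hsw : Sw (fun e : {a // a ∈ A} => e.1) M (2 * M) B P V f) (w : Slot k M → Fin c) :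
    ctr S y (fun w' => f ⟨mn vr α w', hA α w'⟩) w = 0 := by
  classical
  have hcard : (pS vr α Sᶜ w).card = k := by
    rw [card_pS hvr, card_compl, hS, Fintype.card_sum, Fintype.card_fin, Fintype.card_fin]
    omega
  have h0 := hsw (ind (pS vr α Sᶜ w)) (by
    intro s hs
    unfold ind
    rw [if_neg]
    intro h1
    obtain ⟨x, hx, hx'⟩ := mem_pS.1 h1
    rw [mem_compl] at hx
    have h2 : x ≠ i := fun h2 => hx (h2 ▸ hi)
    exact hB x h2 (w x) (hx' ▸ hs)) (by rw [sum_ind, hcard]; omega) (by rw [sum_ind, hcard]; omega)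
  rw [ctr_split hi, ← h0]
  -- the exponents `b` which contribute
  have hins : ∀ t, pS vr α (S.erase i)ᶜ (Function.update w i t) =
      insert (vr (emα k α i, t)) (pS vr α Sᶜ w) := by
    intro t
    ext s
    rw [mem_insert, mem_pS, mem_pS]
    constructor
    · rintro ⟨x, hx, hx'⟩
      by_cases hxi : x = i
      · subst hxi
        rw [Function.update_self] at hx'
        exact Or.inl hx'.symm
      · rw [Function.update_of_ne hxi] at hx'
        refine Or.inr ⟨x, ?_, hx'⟩
        rw [mem_compl, mem_erase] at hx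
        rw [mem_compl]
        exact fun h => hx ⟨hxi, h⟩
    · rintro (rfl | ⟨x, hx, hx'⟩)
      · refine ⟨i, ?_, ?_⟩
        · rw [mem_compl]
          exact notMem_erase i S
        · rw [Function.update_self]
      · rw [mem_compl] at hx
        have hxi : x ≠ i := fun h => hx (h ▸ hi)
        refine ⟨x, ?_, ?_⟩
        · rw [mem_compl, mem_erase]
          exact fun h => hx h.2
        · rw [Function.update_of_ne hxi]
          exact hx'
  have hnot : ∀ t, vr (emα k α i, t) ∉ pS vr α Sᶜ w := by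
    intro t h1
    obtain ⟨x, hx, hx'⟩ := mem_pS.1 h1
    rw [mem_compl] at hx
    have h2 := congrArg Prod.fst (hvr hx')
    have h3 := (emα k α).injective h2
    exact hx (h3 ▸ hi)
  set φ : Fin c → ν → ℕ := fun t => ind (insert (vr (emα k α i, t)) (pS vr α Sᶜ w)) with hφ
  have hφinj : Function.Injective φ := by
    intro t t' h
    have h1 := ind_inj h
    have h2 : vr (emα k α i, t) ∈ insert (vr (emα k α i, t')) (pS vr α Sᶜ w) := by
      rw [← h1]
      exact mem_insert_self _ _
    rcases mem_insert.1 h2 with h3 | h3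
    · exact congrArg Prod.snd (hvr h3)
    · exact absurd h3 (hnot t)
  have hφmem : ∀ t, φ t ∈ bxd ν (2 * M) M := by
    intro t
    unfold bxd bx
    rw [mem_filter]
    refine ⟨?_, ?_⟩
    · rw [Fintype.mem_piFinset]
      intro s
      rw [mem_range]
      show ind _ s < 2 * M
      unfold ind
      split_ifs <;> omega
    · show ∑ s, ind _ s = M
      rw [sum_ind, card_insert_of_notMem (hnot t), hcard]
      exact hk
  have hsub : ∑ b ∈ univ.image φ, tcr V b (ind (pS vr α Sᶜ w)) *
      ∑ e : {a // a ∈ A}, f e * tcr P e.1 b =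
      ∑ b ∈ bxd ν (2 * M) M, tcr V b (ind (pS vr α Sᶜ w)) *
        ∑ e : {a // a ∈ A}, f e * tcr P e.1 b := by
    refine sum_subset ?_ fun b hb hb' => ?_
    · intro b hb
      obtain ⟨t, _, rfl⟩ := mem_image.1 hb
      exact hφmem t
    · by_contra hne
      have hV1 := left_ne_zero_of_mul hne
      have hbsum : ∑ s, b s = M := by
        unfold bxd at hb
        exact (mem_filter.1 hb).2
      have hle : ∀ s, ind (pS vr α Sᶜ w) s ≤ b s := by
        intro s
        by_contra h1
        apply hV1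
        unfold tcr
        refine prod_eq_zero (mem_univ s) ?_
        rw [Nat.choose_eq_zero_of_lt (by omega)]
        simp
      have hsup : ∀ s, ind (pS vr α Sᶜ w) s < b s → V s ≠ 0 := by
        intro s h1 h2
        apply hV1
        unfold tcr
        refine prod_eq_zero (mem_univ s) ?_
        rw [h2, zero_pow (by omega), mul_zero]
      have hone : ∑ s, (b s - ind (pS vr α Sᶜ w) s) = 1 := by
        have h1 : ∑ s, (b s - ind (pS vr α Sᶜ w) s) + ∑ s, ind (pS vr α Sᶜ w) s = ∑ s, b s := by
          rw [← sum_add_distrib]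
          exact sum_congr rfl fun s _ => Nat.sub_add_cancel (hle s)
        rw [sum_ind, hcard, hbsum] at h1
        omega
      obtain ⟨s₀, hs₀, hs₀'⟩ : ∃ s₀, b s₀ - ind (pS vr α Sᶜ w) s₀ = 1 ∧
          ∀ s, s ≠ s₀ → b s - ind (pS vr α Sᶜ w) s = 0 := by
        have h1 : ∃ s₀, b s₀ - ind (pS vr α Sᶜ w) s₀ ≠ 0 := by
          by_contra hcon
          push Not at hcon
          rw [sum_eq_zero fun s _ => hcon s] at hone
          omega
        obtain ⟨s₀, h2⟩ := h1
        have h3 := add_sum_erase univ (fun s => b s - ind (pS vr α Sᶜ w) s) (mem_univ s₀)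
        rw [hone] at h3
        have h4 : b s₀ - ind (pS vr α Sᶜ w) s₀ = 1 := by omega
        refine ⟨s₀, h4, fun s hs => ?_⟩
        have h5 : ∑ s ∈ univ.erase s₀, (b s - ind (pS vr α Sᶜ w) s) = 0 := by omega
        exact (sum_eq_zero_iff.1 h5) s (mem_erase.2 ⟨hs, mem_univ s⟩)
      obtain ⟨t, ht⟩ := hV0 s₀ (hsup s₀ (by omega))
      apply hb'
      rw [mem_image]
      refine ⟨t, mem_univ t, ?_⟩
      funext s
      show ind (insert (vr (emα k α i, t)) (pS vr α Sᶜ w)) s = b s
      have h1 := hle s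
      by_cases hs : s = s₀
      · subst hs
        have h2 : ind (pS vr α Sᶜ w) s = 0 := by
          unfold ind
          rw [if_neg]
          rw [← ht]
          exact hnot t
        have h3 : ind (insert (vr (emα k α i, t)) (pS vr α Sᶜ w)) s = 1 := by
          unfold ind
          rw [if_pos]
          rw [ht]
          exact mem_insert_self _ _
        omega
      · have h2 := hs₀' s hs
        have h3 : ind (insert (vr (emα k α i, t)) (pS vr α Sᶜ w)) s = ind (pS vr α Sᶜ w) s := by
          have h4 : s ∈ insert (vr (emα k α i, t)) (pS vr α Sᶜ w) ↔ s ∈ pS vr α Sᶜ w := by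
            rw [mem_insert, ht]
            exact or_iff_right hs
          by_cases h5 : s ∈ pS vr α Sᶜ w
          · rw [show ind (insert (vr (emα k α i, t)) (pS vr α Sᶜ w)) s = 1 from if_pos (h4.2 h5),
              show ind (pS vr α Sᶜ w) s = 1 from if_pos h5]
          · rw [show ind (insert (vr (emα k α i, t)) (pS vr α Sᶜ w)) s = 0 from
                if_neg fun h6 => h5 (h4.1 h6),
              show ind (pS vr α Sᶜ w) s = 0 from if_neg h5]
        omega
  rw [← hsub, sum_image fun a _ b _ h => hφinj h]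
  refine sum_congr rfl fun t _ => ?_
  have h1 : tcr V (φ t) (ind (pS vr α Sᶜ w)) = y (i, t) := by
    show tcr V (ind _) (ind _) = _
    rw [tcr_ind, if_pos (subset_insert _ _), insert_sdiff_of_notMem _ (hnot t),
      Finset.sdiff_self, prod_insert (notMem_empty _), prod_empty, mul_one]
    exact hV t
  rw [h1]
  congr 1
  rw [← sum_tcr hvr hA hf α (S.erase i) y hP hP0 (Function.update w i t)]
  refine sum_congr rfl fun e _ => ?_
  rw [hins t]

end Pool.Agent.V7.BE
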