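import Pool.Agent.V7.BE.Defs
import Pool.Agent.V7.BE.Proj

/-!
# V7, block BETA: step (4), good configurations for many blocks

From generic exactness (`g_ω(E) ≤ lam e` for all `E`) and strictness for some `ω` (depending on `E`),
by compactness finitely many open sets of configurations suffice; the `z`-blocks are labelled by
`(h, s, i)`, and the pure rainbow `α` with label `s` carries a configuration of the `s`-th open set.
-/

namespace Pool.Agent.V7.BE

open Finset MvPolynomial Pool.Agent.H51.TB Pool.Agent.V7 Topology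

/-- Pull back of a general statement. -/
theorem Gn.pull {κ κ' ν ν' : Type} (φ : κ' → κ) (hφ : Function.Injective φ) (ψ : ν' → ν)
    (hψ : Function.Injective ψ) {P : (κ' → ν' → ℂ) → Prop} (h : Gn κ' ν' P) :
    Gn κ ν fun p => P fun i x => p (φ i) (ψ x) := by
  obtain ⟨G, hG, h⟩ := h
  have hinj : Function.Injective (fun x : κ' × ν' => (φ x.1, ψ x.2)) := by
    intro x y hxy
    have h1 := congrArg Prod.fst hxy
    have h2 := congrArg Prod.snd hxy
    exact Prod.ext (hφ h1) (hψ h2)
  refine ⟨rename (fun x : κ' × ν' => (φ x.1, ψ x.2)) G, ?_, fun p hp => ?_⟩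
  · intro h0
    apply hG
    apply rename_injective _ hinj
    rw [h0, map_zero]
  · apply h
    rw [eval_rename] at hp
    exact hp

section Mat

variable {k M c : ℕ}

/-- The kinds used in `KE`. -/
abbrev Kq (k M : ℕ) : Type := {S : Finset (Slot k M) // S.card = M ∧ S ≠ S0 k M}

/-- Configurations of points of these kinds. -/
abbrev Xr (k M c : ℕ) : Type := Kq k M → Fin (lam M c) → Slot k M × Fin c → ℂ

/-- The matrix of the conditions. -/
noncomputable def matA (ω : Xr k M c) :
    Matrix (Kq k M × Fin (lam M c) × (Slot k M → Fin c)) (Slot k M → Fin c) ℂ :=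
  fun x e => if ∀ j, j ∉ x.1.1 → e j = x.2.2 j then ∏ j ∈ x.1.1, ω x.1 x.2.1 (j, e j) else 0

/-- The slices. -/
def sl (u : Fin M → Fin c) (s : Fin k → Fin c) : Slot k M → Fin c := Sum.elim s u

theorem mem_KE (ω : Pts k M c) (E : Submodule ℂ ((Fin k → Fin c) → ℂ))
    (G : (Slot k M → Fin c) → ℂ) : G ∈ KE ω E ↔
      (∀ u : Fin M → Fin c, (fun s => G (Sum.elim s u)) ∈ E) ∧
      ∀ S : Finset (Slot k M), S.card = M → S ≠ S0 k M → ∀ t w, ctr S (ω S t) G w = 0 := Iff.rfl

theorem KE_eq (ω : Pts k M c) (E : Submodule ℂ ((Fin k → Fin c) → ℂ)) :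
    KE ω E = Kx (matA fun S => ω S.1) sl E := by
  ext G
  rw [mem_Kx, mem_KE]
  refine and_congr Iff.rfl ?_
  have hrow : ∀ (x : Kq k M × Fin (lam M c) × (Slot k M → Fin c)),
      (Matrix.mulVec (matA fun S : Kq k M => ω S.1) G) x = ctr x.1.1 (ω x.1.1 x.2.1) G x.2.2 := by
    intro x
    unfold ctr Matrix.mulVec dotProduct
    refine sum_congr rfl fun e _ => ?_
    show (if ∀ j, j ∉ x.1.1 → e j = x.2.2 j then ∏ j ∈ x.1.1, ω x.1.1 x.2.1 (j, e j) else 0) * G e = _
    split_ifs
    · rfl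
    · rw [zero_mul]
  constructor
  · intro h
    funext x
    rw [hrow x]
    exact h x.1.1 x.1.2.1 x.1.2.2 x.2.1 x.2.2
  · intro h S h1 h2 t w
    have h3 := congrFun h (⟨S, h1, h2⟩, t, w)
    rw [hrow] at h3
    exact h3

theorem matA_continuous : Continuous (matA : Xr k M c → _) := by
  refine continuous_matrix fun x e => ?_
  unfold matA
  by_cases h : ∀ j, j ∉ x.1.1 → e j = x.2.2 j
  · simp only [if_pos h]
    refine continuous_finsetProd _ fun j _ => ?_
    fun_prop
  · simp only [if_neg h]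
    exact continuous_const

end Mat

section Lab

variable {M r q₀ : ℕ}

theorem blk_lt (s : Fin r) (f : Fin M → Fin q₀) (h : Fin M) :
    (h : ℕ) * (r * q₀) + (s * q₀ + f h) < M * r * q₀ := by
  have h1 : (s : ℕ) * q₀ + f h < r * q₀ := by
    calc (s : ℕ) * q₀ + f h < s * q₀ + q₀ := Nat.add_lt_add_left (f h).2 _
      _ = (s + 1) * q₀ := by ring
      _ ≤ r * q₀ := Nat.mul_le_mul_right _ s.2
  calc (h : ℕ) * (r * q₀) + (s * q₀ + f h) < h * (r * q₀) + r * q₀ := Nat.add_lt_add_left h1 _
    _ = (h + 1) * (r * q₀) := by ring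
    _ ≤ M * (r * q₀) := Nat.mul_le_mul_right _ h.2
    _ = M * r * q₀ := by ring

/-- The rainbow `α` with label `s` given by `f`. -/
def blk (s : Fin r) (f : Fin M → Fin q₀) : Fin M ↪o Fin (M * r * q₀) :=
  OrderEmbedding.ofStrictMono (fun h => ⟨(h : ℕ) * (r * q₀) + (s * q₀ + f h), blk_lt s f h⟩) (by
    intro a b hab
    show (a : ℕ) * (r * q₀) + (s * q₀ + f a) < b * (r * q₀) + (s * q₀ + f b)
    have h1 : (s : ℕ) * q₀ + f a < r * q₀ := by
      calc (s : ℕ) * q₀ + f a < s * q₀ + q₀ := Nat.add_lt_add_left (f a).2 _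
        _ = (s + 1) * q₀ := by ring
        _ ≤ r * q₀ := Nat.mul_le_mul_right _ s.2
    have h2 : (a : ℕ) + 1 ≤ b := hab
    calc (a : ℕ) * (r * q₀) + (s * q₀ + f a) < a * (r * q₀) + r * q₀ := Nat.add_lt_add_left h1 _
      _ = (a + 1) * (r * q₀) := by ring
      _ ≤ b * (r * q₀) := Nat.mul_le_mul_right _ h2
      _ ≤ b * (r * q₀) + (s * q₀ + f b) := Nat.le_add_right _ _)

theorem blk_val (s : Fin r) (f : Fin M → Fin q₀) (h : Fin M) :
    ((blk s f h : Fin (M * r * q₀)) : ℕ) = (h : ℕ) * (r * q₀) + (s * q₀ + f h) := rfl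

theorem blk_inj (s : Fin r) : Function.Injective (blk s : (Fin M → Fin q₀) → _) := by
  intro f g hfg
  funext h
  have h1 := congrArg (fun α : Fin M ↪o Fin (M * r * q₀) => ((α h : Fin (M * r * q₀)) : ℕ)) hfg
  simp only [blk_val] at h1
  exact Fin.ext (by omega)

/-- The label `h`. -/
def hlab (b : Fin (M * r * q₀)) : Fin M :=
  ⟨(b : ℕ) / (r * q₀), Nat.div_lt_of_lt_mul (by
    have := b.2
    calc (b : ℕ) < M * r * q₀ := this
      _ = r * q₀ * M := by ring)⟩

/-- The label `s`. -/
def slab (hr : 0 < r) (b : Fin (M * r * q₀)) : Fin r := ⟨((b : ℕ) / q₀) % r, Nat.mod_lt _ hr⟩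

theorem hlab_blk (s : Fin r) (f : Fin M → Fin q₀) (h : Fin M) : hlab (blk s f h) = h := by
  apply Fin.ext
  show ((blk s f h : Fin (M * r * q₀)) : ℕ) / (r * q₀) = h
  rw [blk_val]
  refine Nat.div_eq_of_lt_le (Nat.le_add_right _ _) ?_
  have h1 : (s : ℕ) * q₀ + f h < r * q₀ := by
    calc (s : ℕ) * q₀ + f h < s * q₀ + q₀ := Nat.add_lt_add_left (f h).2 _
      _ = (s + 1) * q₀ := by ring
      _ ≤ r * q₀ := Nat.mul_le_mul_right _ s.2
  calc (h : ℕ) * (r * q₀) + (s * q₀ + f h) < h * (r * q₀) + r * q₀ := Nat.add_lt_add_left h1 _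
    _ = (h + 1) * (r * q₀) := by ring

theorem slab_blk (hr : 0 < r) (s : Fin r) (f : Fin M → Fin q₀) (h : Fin M) :
    slab hr (blk s f h) = s := by
  apply Fin.ext
  show (((blk s f h : Fin (M * r * q₀)) : ℕ) / q₀) % r = s
  rw [blk_val]
  have h1 : ((h : ℕ) * (r * q₀) + (s * q₀ + f h)) / q₀ = h * r + s := by
    refine Nat.div_eq_of_lt_le ?_ ?_
    · calc ((h : ℕ) * r + s) * q₀ = h * (r * q₀) + s * q₀ := by ring
        _ ≤ h * (r * q₀) + (s * q₀ + f h) := by omega
    · calc (h : ℕ) * (r * q₀) + (s * q₀ + f h) < h * (r * q₀) + (s * q₀ + q₀) := by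
            have := (f h).2
            omega
        _ = (h * r + s + 1) * q₀ := by ring
  rw [h1, Nat.mul_add_mod']
  exact Nat.mod_eq_of_lt s.2

end Lab

theorem card_oemb_le (M q : ℕ) : Fintype.card (Fin M ↪o Fin q) ≤ q.choose M := by
  classical
  have h1 : Fintype.card (Finset.powersetCard M (univ : Finset (Fin q))) = q.choose M := by
    rw [Fintype.card_coe, Finset.card_powersetCard, Finset.card_univ, Fintype.card_fin]
  rw [← h1]
  refine Fintype.card_le_of_injective (fun α : Fin M ↪o Fin q =>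
    ⟨univ.map α.toEmbedding, Finset.mem_powersetCard.2 ⟨Finset.subset_univ _, by simp⟩⟩) ?_
  intro α β h
  have h2 : (univ.map α.toEmbedding : Finset (Fin q)) = univ.map β.toEmbedding :=
    congrArg Subtype.val h
  have h3 : Set.range α = Set.range β := by
    have h4 := congrArg (fun s : Finset (Fin q) => (s : Set (Fin q))) h2
    simpa using h4
  exact OrderEmbedding.range_inj.1 h3

section Main

variable {k M c r q₀ : ℕ}

/-- The slot labels. -/
def lab : Fin k ⊕ Fin (M * r * q₀) → Slot k M := Sum.map id hlab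

/-- The embedding of slots given by `α`. -/
def emb {q : ℕ} (α : Fin M ↪o Fin q) : Slot k M ↪ Fin k ⊕ Fin q :=
  (Function.Embedding.refl (Fin k)).sumMap α.toEmbedding

theorem lab_emb (s : Fin r) (f : Fin M → Fin q₀) (x : Slot k M) :
    lab (emb (blk s f) x) = x := by
  rcases x with i | h
  · rfl
  · show Sum.inr (hlab (blk s f h)) = Sum.inr h
    rw [hlab_blk]

open Classical in
/-- The label `s` of a set of blocks. -/
noncomputable def sS (hr : 0 < r) (S : Finset (Fin k ⊕ Fin (M * r * q₀))) : Fin r :=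
  if h : ∃ b, Sum.inr b ∈ S then slab hr h.choose else ⟨0, hr⟩

theorem sS_emb (hk : k < M) (hr : 0 < r) (s : Fin r) (f : Fin M → Fin q₀)
    (S : Finset (Slot k M)) (hS : S.card = M) : sS hr (S.map (emb (blk s f))) = s := by
  have h1 : ∃ b, Sum.inr b ∈ S.map (emb (k := k) (blk s f)) := by
    by_contra hcon
    push Not at hcon
    have h2 : S ⊆ univ.map (Function.Embedding.inl : Fin k ↪ Slot k M) := by
      intro x hx
      rcases x with i | h
      · exact Finset.mem_map.2 ⟨i, Finset.mem_univ _, rfl⟩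
      · exact absurd (Finset.mem_map.2 ⟨Sum.inr h, hx, rfl⟩) (hcon (blk s f h))
    have h3 := Finset.card_le_card h2
    rw [Finset.card_map, Finset.card_univ, Fintype.card_fin] at h3
    omega
  unfold sS
  rw [dif_pos h1]
  obtain ⟨x, _, hx⟩ := Finset.mem_map.1 h1.choose_spec
  rcases x with i | h
  · exact absurd hx (by simp [emb])
  · have h4 : blk s f h = h1.choose := Sum.inr_injective hx
    rw [← h4, slab_blk]

open Classical in
/-- Extension of a configuration by zero. -/
noncomputable def ext0 (ω : Xr k M c) : Pts k M c :=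
  fun S t x => if h : S.card = M ∧ S ≠ S0 k M then ω ⟨S, h⟩ t x else 0

/-- The block configuration. -/
noncomputable def Om0 (hr : 0 < r) (ω : Fin r → Xr k M c) : PtsQ k M c (M * r * q₀) :=
  fun S t x => ext0 (ω (sS hr S)) (S.image lab) t (lab x.1, x.2)

theorem res_Om0 (hk : k < M) (hr : 0 < r) (ω : Fin r → Xr k M c) (s : Fin r)
    (f : Fin M → Fin q₀) :
    (fun S : Kq k M => res (Om0 hr ω) (blk s f) S.1) = ω s := by
  funext S t x
  show ext0 (ω (sS hr (S.1.map (emb (blk s f))))) ((S.1.map (emb (blk s f))).image lab) t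
    (lab (emb (blk s f) x.1), x.2) = ω s S t x
  have h1 : (S.1.map (emb (k := k) (blk s f))).image lab = S.1 := by
    rw [Finset.map_eq_image, Finset.image_image]
    have : (lab ∘ ⇑(emb (k := k) (blk s f))) = id := funext fun x => lab_emb s f x
    rw [this, Finset.image_id]
  rw [sS_emb hk hr s f S.1 S.2.1, h1, lab_emb]
  unfold ext0
  rw [dif_pos S.2]

/-- Good configurations for many blocks. -/
theorem exists_good (hk : k < M)
    (hgen : Gn (Finset (Slot k M) × Fin (lam M c)) (Slot k M × Fin c) fun p =>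
      ∀ E : Submodule ℂ ((Fin k → Fin c) → ℂ),
        Module.finrank ℂ (KE (fun S t => p (S, t)) E) ≤ lam M c * Module.finrank ℂ E)
    (hstrict : ∀ E : Submodule ℂ ((Fin k → Fin c) → ℂ), E ≠ ⊥ → E ≠ ⊤ → ∃ ω : Pts k M c,
      Module.finrank ℂ (KE ω E) < lam M c * Module.finrank ℂ E) :
    ∃ r : ℕ, 0 < r ∧ ∀ q₀ : ℕ, ∃ Ω : PtsQ k M c (M * r * q₀),
      ∀ E : Submodule ℂ ((Fin k → Fin c) → ℂ), E ≠ ⊥ → E ≠ ⊤ →
        ∑ α : Fin M ↪o Fin (M * r * q₀), Module.finrank ℂ (KE (res Ω α) E) + q₀ ^ M ≤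
          lam M c * Module.finrank ℂ E * (M * r * q₀).choose M := by
  classical
  let b : ℕ → ℕ := fun e => if 0 < e ∧ e < Fintype.card (Fin k → Fin c) then lam M c * e - 1
    else Fintype.card (Slot k M → Fin c)
  have hE : ∀ E : Submodule ℂ ((Fin k → Fin c) → ℂ), (E ≠ ⊥ ∧ E ≠ ⊤) ↔
      (0 < Module.finrank ℂ E ∧ Module.finrank ℂ E < Fintype.card (Fin k → Fin c)) := by
    intro E
    have h1 : Module.finrank ℂ ((Fin k → Fin c) → ℂ) = Fintype.card (Fin k → Fin c) := by simp
    constructor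
    · rintro ⟨h2, h3⟩
      refine ⟨?_, ?_⟩
      · rw [Nat.pos_iff_ne_zero]
        intro h0
        exact h2 (Submodule.finrank_eq_zero.1 h0)
      · rw [← h1]
        exact Submodule.finrank_lt h3
    · rintro ⟨h2, h3⟩
      refine ⟨?_, ?_⟩
      · rintro rfl
        simp at h2
      · rintro rfl
        rw [finrank_top, h1] at h3
        exact lt_irrefl _ h3
  obtain ⟨r, hr, W, hW, hcov⟩ := Kx_cover (matA : Xr k M c → _) matA_continuous sl b (by
    intro E
    by_cases h : E ≠ ⊥ ∧ E ≠ ⊤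
    · obtain ⟨ω, hω⟩ := hstrict E h.1 h.2
      refine ⟨fun S => ω S.1, ?_⟩
      rw [← KE_eq]
      show _ ≤ if _ then _ else _
      rw [if_pos ((hE E).1 h)]
      omega
    · refine ⟨0, ?_⟩
      show _ ≤ if _ then _ else _
      rw [if_neg (fun h' => h ((hE E).2 h'))]
      have := Submodule.finrank_le (Kx (matA (0 : Xr k M c)) sl E)
      simpa using this)
  refine ⟨r, hr, fun q₀ => ?_⟩
  choose ω hω using fun s => (hW s).2
  -- the induced configuration of a point of the big space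
  let κ' : Type := Finset (Fin k ⊕ Fin (M * r * q₀)) × Fin (lam M c)
  let ν' : Type := (Fin k ⊕ Fin (M * r * q₀)) × Fin c
  let Θ : (κ' → ν' → ℂ) → PtsQ k M c (M * r * q₀) := fun p S t => p (S, t)
  have hopen : IsOpen {p : κ' → ν' → ℂ | ∀ (s : Fin r) (f : Fin M → Fin q₀),
      (fun S : Kq k M => res (Θ p) (blk s f) S.1) ∈ W s} := by
    have h1 : {p : κ' → ν' → ℂ | ∀ (s : Fin r) (f : Fin M → Fin q₀),
        (fun S : Kq k M => res (Θ p) (blk s f) S.1) ∈ W s} =
        ⋂ s : Fin r, ⋂ f : Fin M → Fin q₀,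
          (fun p : κ' → ν' → ℂ => fun S : Kq k M => res (Θ p) (blk s f) S.1) ⁻¹' W s := by
      ext p
      simp
    rw [h1]
    refine isOpen_iInter_of_finite fun s => isOpen_iInter_of_finite fun f => (hW s).1.preimage ?_
    refine continuous_pi fun S => continuous_pi fun t => continuous_pi fun x => ?_
    show Continuous fun p : κ' → ν' → ℂ => p (S.1.map (emb (blk s f)), t)
      (Sum.map id (blk s f) x.1, x.2)
    exact (continuous_apply _).comp (continuous_apply _)
  have hgood : Gn κ' ν' fun p => ∀ α ∈ (univ : Finset (Fin M ↪o Fin (M * r * q₀))),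
      ∀ E : Submodule ℂ ((Fin k → Fin c) → ℂ),
        Module.finrank ℂ (KE (res (Θ p) α) E) ≤ lam M c * Module.finrank ℂ E := by
    refine Gn.all _ fun α _ => ?_
    have h1 := Gn.pull (κ := κ') (ν := ν')
      (fun x : Finset (Slot k M) × Fin (lam M c) => (x.1.map (emb α), x.2)) (by
        intro x y hxy
        have h2 := congrArg Prod.fst hxy
        have h3 := congrArg Prod.snd hxy
        exact Prod.ext (Finset.map_injective _ h2) h3)
      (fun x : Slot k M × Fin c => (emb α x.1, x.2)) (by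
        intro x y hxy
        have h2 := congrArg Prod.fst hxy
        have h3 := congrArg Prod.snd hxy
        exact Prod.ext ((emb α).injective h2) h3) hgen
    refine h1.mono fun p hp E => ?_
    exact hp E
  obtain ⟨p, hpU, hp⟩ := Gn.near hgood (fun x => Om0 hr ω x.1 x.2) _ (hopen.mem_nhds (by
    intro s f
    have h1 := res_Om0 (q₀ := q₀) hk hr ω s f
    have h2 : (fun S : Kq k M => res (Θ fun x => Om0 hr ω x.1 x.2) (blk s f) S.1) = ω s := h1
    rw [h2]
    exact hω s))
  refine ⟨Θ p, fun E hE1 hE2 => ?_⟩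
  obtain ⟨s, hs⟩ := hcov E
  have hbE : b (Module.finrank ℂ E) = lam M c * Module.finrank ℂ E - 1 := by
    show (if _ then _ else _) = _
    rw [if_pos ((hE E).1 ⟨hE1, hE2⟩)]
  have hpos : 1 ≤ lam M c * Module.finrank ℂ E := by
    obtain ⟨ω', hω'⟩ := hstrict E hE1 hE2
    omega
  let I : Finset (Fin M ↪o Fin (M * r * q₀)) := univ.image (blk s)
  have hI : I.card = q₀ ^ M := by
    rw [Finset.card_image_of_injective _ (blk_inj s), Finset.card_univ, Fintype.card_fun,
      Fintype.card_fin, Fintype.card_fin]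
  have hterm : ∀ α : Fin M ↪o Fin (M * r * q₀),
      Module.finrank ℂ (KE (res (Θ p) α) E) + (if α ∈ I then 1 else 0) ≤
        lam M c * Module.finrank ℂ E := by
    intro α
    by_cases hα : α ∈ I
    · rw [if_pos hα]
      obtain ⟨f, _, rfl⟩ := Finset.mem_image.1 hα
      have h1 := hs _ (hpU s f)
      rw [hbE, ← KE_eq] at h1
      omega
    · rw [if_neg hα]
      exact hp α (Finset.mem_univ _) E
  have hsum := Finset.sum_le_sum fun α (_ : α ∈ univ) => hterm α
  rw [Finset.sum_add_distrib, Finset.sum_const, smul_eq_mul, Finset.card_univ] at hsum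
  have h2 : ∑ α : Fin M ↪o Fin (M * r * q₀), (if α ∈ I then 1 else 0) = q₀ ^ M := by
    rw [Finset.sum_ite_mem, Finset.univ_inter, Finset.sum_const, smul_eq_mul, mul_one, hI]
  rw [h2] at hsum
  refine hsum.trans ?_
  rw [mul_comm]
  exact Nat.mul_le_mul_left _ (card_oemb_le M _)

end Main

end Pool.Agent.V7.BE
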