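import Pool.Agent.V7.Top.Lin

/-!
# V7, block BETA: the bound for all subspaces is an open condition on the position

* `SysX.near`: for any system with finitely many points;
* `SF_near`, `SF_near_real`: the form used by the assembly of the top level.
-/

set_option autoImplicit false

namespace Pool.Agent.V7.BE

open Finset Module MvPolynomial Pool.Agent.H51.TB Pool.Agent.V7 Pool.Agent.V7.Top Topology

section

variable {E ν T : Type} [Fintype E] (S : Sys E ν T) {κ : Type} (m : κ → T)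

/-- The matrix of the conditions. -/
noncomputable def OpenX.mat (p : κ → ν → ℂ) : Matrix (Σ i : κ, S.R (m i)) E ℂ :=
  fun x e => eval (p x.1) (S.co (m x.1) x.2 e)

theorem OpenX.mem (p : κ → ν → ℂ) (f : E → ℂ) :
    Matrix.mulVec (OpenX.mat S m p) f = 0 ↔ f ∈ S.V m p := by
  rw [Sys.mem_V]
  constructor
  · intro h i r
    exact congrFun h ⟨i, r⟩
  · intro h
    funext x
    exact h x.1 x.2

theorem OpenX.continuous_eval [Fintype ν] (P : MvPolynomial ν ℂ) :
    Continuous fun q : ν → ℂ => eval q P := MvPolynomial.continuous_eval P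

theorem OpenX.continuous [Fintype ν] : Continuous (OpenX.mat S m) := by
  refine continuous_matrix fun x e => ?_
  show Continuous fun p : κ → ν → ℂ => eval (p x.1) (S.co (m x.1) x.2 e)
  exact (MvPolynomial.continuous_eval _).comp (continuous_apply x.1)

variable {U ι : Type} [Fintype U] [Fintype ι]

/-- The solutions with all slices in `F`. -/
noncomputable def SysX (σ : U → ι → E) (p : κ → ν → ℂ) (F : Submodule ℂ (ι → ℂ)) :
    Submodule ℂ (E → ℂ) := Kx (OpenX.mat S m p) σ F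

omit [Fintype U] in
theorem SysX.mem (σ : U → ι → E) (p : κ → ν → ℂ) (F : Submodule ℂ (ι → ℂ)) (f : E → ℂ) :
    f ∈ SysX S m σ p F ↔ f ∈ S.V m p ∧ ∀ u, (fun i => f (σ u i)) ∈ F := by
  unfold SysX
  rw [mem_Kx, OpenX.mem, and_comm]

/-- Openness of the bound. -/
theorem SysX.near [Fintype ν] [Fintype κ] (σ : U → ι → E) (b : ℕ → ℕ) (p₁ : κ → ν → ℂ)
    (h : ∀ F : Submodule ℂ (ι → ℂ), finrank ℂ (SysX S m σ p₁ F) ≤ b (finrank ℂ F)) :
    ∀ᶠ p in 𝓝 p₁, ∀ F : Submodule ℂ (ι → ℂ),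
      finrank ℂ (SysX S m σ p F) ≤ b (finrank ℂ F) := by
  classical
  have hfin : ∀ i : κ, Finite (S.R (m i)) := fun i => S.fin (m i)
  have : Finite (Σ i : κ, S.R (m i)) := inferInstance
  have := Fintype.ofFinite (Σ i : κ, S.R (m i))
  exact Kx_near (OpenX.mat S m) (OpenX.continuous S m) σ b p₁ h

end

section

variable {ν : Type} [Fintype ν] [DecidableEq ν] {k c n : ℕ}

/-- The exponents of degree `M` in the last variables. -/
abbrev OpenX.U (n M : ℕ) : Type := {α : Fin n → ℕ // ∑ t, α t = M}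

theorem OpenX.finite (n M : ℕ) : Finite (OpenX.U n M) :=
  finite_lt M _ fun _ hb => hb.le

theorem SF_eq {φ : (Fin k × Fin c) ⊕ Fin n ≃ ν} {β : ν → ℕ} (hβ : IsB φ β) {M : ℕ}
    (hk : k + 1 = M) {κ : Type} (rest : κ → Kd) (p : κ → ν ⊕ ν → ℂ)
    (F : Submodule ℂ ((Fin k → Fin c) → ℂ)) :
    SF φ ((LS M β k).V rest p) F = SysX (LS M β k) rest
      (fun (α : OpenX.U n M) (a : Fin k → Fin c) =>
        (⟨sl φ a α.1, sl_mem hβ hk a α.2⟩ : {e // e ∈ Ex β (2 * M - 1) k})) p F := by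
  ext f
  rw [mem_SF hβ hk, SysX.mem]
  refine and_congr_right fun _ => ?_
  constructor
  · exact fun h α => h α.1 α.2
  · exact fun h α hα => h ⟨α, hα⟩

/-- Openness for the spaces `SF`. -/
theorem SF_near {φ : (Fin k × Fin c) ⊕ Fin n ≃ ν} {β : ν → ℕ} (hβ : IsB φ β) {M : ℕ}
    (hk : k + 1 = M) {κ : Type} [Fintype κ] (rest : κ → Kd) (b : ℕ → ℕ) (p₁ : κ → ν ⊕ ν → ℂ)
    (h : ∀ F : Submodule ℂ ((Fin k → Fin c) → ℂ),
      finrank ℂ (SF φ ((LS M β k).V rest p₁) F) ≤ b (finrank ℂ F)) :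
    ∀ᶠ p in 𝓝 p₁, ∀ F : Submodule ℂ ((Fin k → Fin c) → ℂ),
      finrank ℂ (SF φ ((LS M β k).V rest p) F) ≤ b (finrank ℂ F) := by
  classical
  have := OpenX.finite n M
  have := Fintype.ofFinite (OpenX.U n M)
  have h1 := SysX.near (LS M β k) rest (fun (α : OpenX.U n M) (a : Fin k → Fin c) =>
    (⟨sl φ a α.1, sl_mem hβ hk a α.2⟩ : {e // e ∈ Ex β (2 * M - 1) k})) b p₁ fun F => by
      rw [← SF_eq hβ hk rest p₁ F]
      exact h F
  refine h1.mono fun p hp F => ?_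
  rw [SF_eq hβ hk rest p F]
  exact hp F

/-- Openness for the spaces `SF`, proper subspaces and a linear bound. -/
theorem SF_near_real {φ : (Fin k × Fin c) ⊕ Fin n ≃ ν} {β : ν → ℕ} (hβ : IsB φ β) {M : ℕ}
    (hk : k + 1 = M) {κ : Type} [Fintype κ] (rest : κ → Kd) (B : ℝ) (p₁ : κ → ν ⊕ ν → ℂ)
    (h : ∀ F : Submodule ℂ ((Fin k → Fin c) → ℂ), F ≠ ⊥ → F ≠ ⊤ →
      (finrank ℂ (SF φ ((LS M β k).V rest p₁) F) : ℝ) ≤ B * finrank ℂ F) :
    ∀ᶠ p in 𝓝 p₁, ∀ F : Submodule ℂ ((Fin k → Fin c) → ℂ), F ≠ ⊥ → F ≠ ⊤ →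
      (finrank ℂ (SF φ ((LS M β k).V rest p) F) : ℝ) ≤ B * finrank ℂ F := by
  classical
  have hE : ∀ F : Submodule ℂ ((Fin k → Fin c) → ℂ), (F ≠ ⊥ ∧ F ≠ ⊤) ↔
      (0 < finrank ℂ F ∧ finrank ℂ F < c ^ k) := by
    intro F
    have h1 : finrank ℂ ((Fin k → Fin c) → ℂ) = c ^ k := by simp
    constructor
    · rintro ⟨h2, h3⟩
      refine ⟨?_, ?_⟩
      · rw [Nat.pos_iff_ne_zero]
        intro h0
        exact h2 (Submodule.finrank_eq_zero.1 h0)
      · rw [← h1]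
        exact Submodule.finrank_lt h3
    · rintro ⟨h2, h3⟩
      refine ⟨?_, ?_⟩
      · rintro rfl
        rw [finrank_bot] at h2
        exact lt_irrefl _ h2
      · rintro rfl
        rw [finrank_top, h1] at h3
        exact lt_irrefl _ h3
  let D : ℕ := finrank ℂ ({e // e ∈ Ex β (2 * M - 1) k} → ℂ)
  let b : ℕ → ℕ := fun e => if 0 < e ∧ e < c ^ k then ⌊B * e⌋₊ else D
  by_cases hB : 0 ≤ B
  · have h1 := SF_near hβ hk rest b p₁ (by
      intro F
      show _ ≤ if _ then _ else _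
      by_cases hF : F ≠ ⊥ ∧ F ≠ ⊤
      · rw [if_pos ((hE F).1 hF)]
        exact Nat.le_floor (h F hF.1 hF.2)
      · rw [if_neg (fun h' => hF ((hE F).2 h'))]
        exact Submodule.finrank_le _)
    refine h1.mono fun p hp F hF1 hF2 => ?_
    have h2 := hp F
    have h3 : b (finrank ℂ F) = ⌊B * (finrank ℂ F : ℝ)⌋₊ := by
      show (if _ then _ else _) = _
      rw [if_pos ((hE F).1 ⟨hF1, hF2⟩)]
    rw [h3] at h2
    have h4 : (0 : ℝ) ≤ B * finrank ℂ F := by positivity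
    exact le_trans (by exact_mod_cast h2) (Nat.floor_le h4)
  · refine Filter.Eventually.of_forall fun p F hF1 hF2 => ?_
    exfalso
    have h2 := h F hF1 hF2
    have h3 := (hE F).1 ⟨hF1, hF2⟩
    have h4 : (0 : ℝ) < finrank ℂ F := by exact_mod_cast h3.1
    have h5 : (0 : ℝ) ≤ (finrank ℂ (SF φ ((LS M β k).V rest p₁) F) : ℝ) := Nat.cast_nonneg _
    push Not at hB
    nlinarith

end

end Pool.Agent.V7.BE
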