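import Pool.Agent.V7.BE.Tau
import Pool.Agent.V7.BE.Num
import Pool.Agent.V7.BE.Open
import Pool.Agent.V7.Num.Asym
import Pool.Agent.V7.Top.Inp
import Pool.Agent.V7.ST.Bb

/-!
# V7, block BETA: the result
-/

set_option autoImplicit false
set_option linter.unusedSectionVars false

namespace Pool.Agent.V7

open Finset Module Pool.Agent.H51.TB Topology Pool.Agent.V7.BE

private theorem beta_num {M c q n : ℕ} (hM : 2 ≤ M) (hc : 1 ≤ c) {ε₀ : ℝ} (h0 : 0 ≤ ε₀) (h1 : ε₀ ≤ 1)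
    (hq : (q : ℝ) * c ≤ (1 - ε₀) * n) {N : Kd → ℕ}
    (hcls : Cls0 M c (M - 1) n (ε₀ / (((2 * M - 1).choose M : ℕ) * M.factorial : ℝ)) N)
    {I : Finset ℕ} (hI : I ⊆ range (M - 1)) (hI' : I ≠ range (M - 1)) :
    lam M c * q.choose (I.card + 1) ≤ tot M (M - 1) N I := by
  have hlt : I.card < M - 1 := by
    have := card_lt_card (lt_of_le_of_ne hI hI')
    rwa [card_range] at this
  have hC : 1 ≤ (2 * M - 1).choose M := Nat.choose_pos (by omega)
  have h2 := num_pts (M := M) (c := c) (q := q) hc rfl hC (x := (n : ℝ)) (Nat.cast_nonneg n) h0 h1 hq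
    (i := I.card) (by omega)
  have h3 := hcls.big I hI hI'
  have e1 : M + I.card - (M - 1) = I.card + 1 := by omega
  unfold nom at h3
  rw [e1] at h3
  have h4 := (abs_le.1 h3).1
  have h5 : ((lam M c * q.choose (I.card + 1) : ℕ) : ℝ) ≤ (tot M (M - 1) N I : ℝ) := by
    push_cast
    linarith
  exact_mod_cast h5

/-- BETA. -/
theorem beta (M : ℕ) (hM : 2 ≤ M) : ∃ c₀ L : ℕ, 1 ≤ L ∧ ∀ c, c₀ ≤ c → L ∣ c →
    BETA M c (M - 1) := by
  refine ⟨1, (Wt M).factorial, Nat.factorial_pos _, fun c hc hdiv => ?_⟩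
  have hk : M - 1 + 1 = M := by omega
  obtain ⟨r, hr, hΩ⟩ := exists_omega hk hc hdiv
  obtain ⟨ε₀, δ, hε₀, hε₀1, hδ, hδ1, hmain⟩ := num_main M c r (by omega) hc hr (M - 1)
  obtain ⟨K, hK, hasym⟩ := bb_asym c (2 * M - 1) (M - 1) (by omega)
  obtain ⟨n₁, hn₁⟩ := hmain K hK.le
  have hC : 1 ≤ (2 * M - 1).choose M := Nat.choose_pos (by omega)
  have hC' : (0 : ℝ) < ((2 * M - 1).choose M : ℕ) := by exact_mod_cast hC
  refine ⟨δ, hδ, ε₀ / (((2 * M - 1).choose M : ℕ) * M.factorial : ℝ), by positivity, max n₁ 1,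
    fun n hn m φ hφ κ _ rest hcls _ => ?_⟩
  have hn1 : n₁ ≤ n := (le_max_left _ _).trans hn
  have hn0 : 1 ≤ n := (le_max_right _ _).trans hn
  obtain ⟨q₀, hq1, hq2, hq3⟩ := hn₁ n hn1
  set q := M * r * q₀ with hq
  have hm : (M - 1) * c + m = n := by
    have h1 := Fintype.card_congr φ
    rw [Fintype.card_sum, Fintype.card_prod, Fintype.card_fin, Fintype.card_fin, Fintype.card_fin,
      Fintype.card_fin] at h1
    exact h1
  have hqm : q * c ≤ m := by omega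
  let vz : Fin q × Fin c → Fin m := fun x => Fin.castLE hqm (finProdFinEquiv x)
  have hvz : Function.Injective vz := fun x y h =>
    finProdFinEquiv.injective (Fin.castLE_injective hqm h)
  obtain ⟨Ω, hΩ'⟩ := hΩ q₀
  have hok : ∀ i, (rest i).Ok M (M - 1) := by
    intro i
    refine mem_kds.1 (hcls.ok (rest i) ?_)
    exact Multiset.count_ne_zero.2 (Multiset.mem_map_of_mem rest (Finset.mem_univ_val i))
  obtain ⟨τ, hτ, hτ'⟩ := exists_tau (q := q) rest hk (lam M c) fun I hI hI' =>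
    beta_num hM hc hε₀.le hε₀1 hq2 hcls hI hI'
  obtain ⟨p₁, hp₁⟩ := at_p1 hφ hvz hk hM rest hok Ω τ hτ hτ'
  refine ⟨p₁, ?_⟩
  have hX : ((Pool.Agent.V7.Ex (blk c n) (2 * M - 1) (M - 1)).card : ℝ) ≤
      (c : ℝ) ^ (M - 1) * (n : ℝ) ^ M / M.factorial + K * (n : ℝ) ^ (M - 1) := by
    rw [ST.card_Ex hc (2 * M - 1) (by omega : (M - 1) * c ≤ n)]
    have h1 := (abs_le.1 (hasym n hn0 (by omega))).2
    have e1 : 2 * M - 1 - (M - 1) = M := by omega
    rw [e1] at h1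
    have hn' : (n : ℝ) ≠ 0 := by
      have : n ≠ 0 := by omega
      exact_mod_cast this
    have e2 : K / n * (n : ℝ) ^ M = K * (n : ℝ) ^ (M - 1) := by
      have e3 : (n : ℝ) ^ M = (n : ℝ) ^ (M - 1) * n := by
        rw [← pow_succ, hk]
      rw [e3]
      field_simp
    rw [e2] at h1
    have e4 : (c : ℝ) ^ (M - 1) / (M.factorial : ℝ) * (n : ℝ) ^ M =
        (c : ℝ) ^ (M - 1) * (n : ℝ) ^ M / M.factorial := by ring
    rw [e4] at h1
    linarith
  have hnear := SF_near_real hφ hk rest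
    ((1 - δ) * ((n : ℝ) ^ M / (((2 * M - 1).choose M : ℝ) * (M.factorial : ℝ)))) p₁ ?_
  · refine hnear.mono fun p hp F h0 h1 => ?_
    refine (hp F h0 h1).trans (le_of_eq ?_)
    ring
  · intro F h0 h1
    have h2 := hp₁ F
    have h3 := hΩ' F h0 h1
    have hfr : finrank ℂ ((Fin (M - 1) → Fin c) → ℂ) = c ^ (M - 1) := by
      rw [Module.finrank_fintype_fun_eq_card, Fintype.card_fun, Fintype.card_fin, Fintype.card_fin]
    have he1 : (1 : ℝ) ≤ (finrank ℂ F : ℝ) := by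
      have : 0 < finrank ℂ F := Nat.pos_of_ne_zero fun h => h0 (Submodule.finrank_eq_zero.1 h)
      exact_mod_cast this
    have he2 : (finrank ℂ F : ℝ) ≤ (c : ℝ) ^ (M - 1) := by
      have := Submodule.finrank_le F
      rw [hfr] at this
      exact_mod_cast this
    have h4 := hq3 _ hX (finrank ℂ F : ℝ) _ he1 he2 le_rfl
    have h5' : finrank ℂ (Top.SF φ ((LS M (blk c n) (M - 1)).V rest p₁) F) +
        c ^ (M - 1 + M) * q.choose M + q₀ ^ M ≤
        (Pool.Agent.V7.Ex (blk c n) (2 * M - 1) (M - 1)).card +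
          lam M c * finrank ℂ F * q.choose M := by
      linarith
    have h5 : ((finrank ℂ (Top.SF φ ((LS M (blk c n) (M - 1)).V rest p₁) F) +
        c ^ (M - 1 + M) * q.choose M + q₀ ^ M : ℕ) : ℝ) ≤
        (((Pool.Agent.V7.Ex (blk c n) (2 * M - 1) (M - 1)).card +
          lam M c * finrank ℂ F * q.choose M : ℕ) : ℝ) := Nat.cast_le.2 h5'
    push_cast at h5
    have h6 : 0 ≤ (finrank ℂ F : ℝ) * ((c : ℝ) ^ (M - 1) - finrank ℂ F) :=
      mul_nonneg (by linarith) (by linarith)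
    have e5 : (c : ℝ) ^ (M - 1 + M) = (c : ℝ) ^ (M - 1) * (c : ℝ) ^ M := pow_add _ _ _
    rw [e5] at h5
    have e6 : (finrank ℂ F : ℝ) *
        ((1 - δ) * ((n : ℝ) ^ M / (((2 * M - 1).choose M : ℝ) * (M.factorial : ℝ)))) =
        ((1 - δ) * ((n : ℝ) ^ M / (((2 * M - 1).choose M : ℝ) * (M.factorial : ℝ)))) *
          finrank ℂ F := by ring
    rw [e6] at h4
    linarith

end Pool.Agent.V7
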