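import Pool.Agent.V7.AL.TDefs

/-!
# V7, block BETA: definitions of the tensor part

Slots `Fin k ⊕ Fin M` (`k = M - 1` in the application): the first `k` are the factors of
`B = (ℂ^c)^{⊗ k}`, the last `M` are `M` different blocks of `z`-variables.  `lam M c = c^M / C`,
`C = binom(2M-1, M)`.  The kinds are the `M`-subsets `S` of the slots; `S₀` is the set of the
`z`-slots.  A configuration `ω : Pts k M c` gives `lam` points for every `S` (only `|S| = M`,
`S ≠ S₀` are used by `KE`).
-/

namespace Pool.Agent.V7.BE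

open Finset MvPolynomial Pool.Agent.H51.TB Pool.Agent.V7

/-- The number of points of every kind. -/
def lam (M c : ℕ) : ℕ := c ^ M / (2 * M - 1).choose M

/-- The slots. -/
abbrev Slot (k M : ℕ) : Type := Fin k ⊕ Fin M

/-- The kind `S₀` of the type `[k]` points. -/
def S0 (k M : ℕ) : Finset (Slot k M) := univ.filter fun j => j.isRight

/-- Configurations of points. -/
abbrev Pts (k M c : ℕ) : Type := Finset (Slot k M) → Fin (lam M c) → Slot k M × Fin c → ℂ

/-- The tensors with first index in `E` killed by all points of `ω` of the kinds `S ≠ S₀`. -/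
noncomputable def KE {k M c : ℕ} (ω : Pts k M c) (E : Submodule ℂ ((Fin k → Fin c) → ℂ)) :
    Submodule ℂ ((Slot k M → Fin c) → ℂ) where
  carrier := {G | (∀ u : Fin M → Fin c, (fun s => G (Sum.elim s u)) ∈ E) ∧
    ∀ S : Finset (Slot k M), S.card = M → S ≠ S0 k M → ∀ t w, ctr S (ω S t) G w = 0}
  zero_mem' := by
    refine ⟨fun u => ?_, fun S _ _ t w => ?_⟩
    · exact E.zero_mem
    · unfold ctr
      simp
  add_mem' := by
    rintro a b ⟨ha, ha'⟩ ⟨hb, hb'⟩
    refine ⟨fun u => E.add_mem (ha u) (hb u), fun S h1 h2 t w => ?_⟩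
    have e : ctr S (ω S t) (a + b) w = ctr S (ω S t) a w + ctr S (ω S t) b w := by
      unfold ctr
      rw [← sum_add_distrib]
      refine sum_congr rfl fun e _ => ?_
      split_ifs
      · rw [Pi.add_apply, mul_add]
      · rw [add_zero]
    rw [e, ha' S h1 h2 t w, hb' S h1 h2 t w, add_zero]
  smul_mem' := by
    rintro x a ⟨ha, ha'⟩
    refine ⟨fun u => E.smul_mem x (ha u), fun S h1 h2 t w => ?_⟩
    have e : ctr S (ω S t) (x • a) w = x * ctr S (ω S t) a w := by
      unfold ctr
      rw [mul_sum]
      refine sum_congr rfl fun e _ => ?_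
      split_ifs
      · rw [Pi.smul_apply, smul_eq_mul]
        ring
      · rw [mul_zero]
    rw [e, ha' S h1 h2 t w, mul_zero]

/-- Configurations for `q` blocks: `lam` points for every set of `x`- and `z`-blocks. -/
abbrev PtsQ (k M c q : ℕ) : Type :=
  Finset (Fin k ⊕ Fin q) → Fin (lam M c) → (Fin k ⊕ Fin q) × Fin c → ℂ

/-- The configuration induced on the blocks `α 0 < α 1 < ...`. -/
def res {k M c q : ℕ} (Ω : PtsQ k M c q) (α : Fin M ↪o Fin q) : Pts k M c :=
  fun S t x => Ω (S.map ((Function.Embedding.refl (Fin k)).sumMap α.toEmbedding)) t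
    (Sum.map id α x.1, x.2)

end Pool.Agent.V7.BE
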