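import Pool.Agent.V7.BE.Ctr

/-!
# V7, block BETA, module Dir: directions

`exists_dir`: for every proper nonzero subspace `E` of `(ℂ^c)^{⊗ k}` there are a factor `i` and a
vector `x` such that the contraction `E → E ⌟ x` has rank greater than `dim E / c`.

`tele`: dimension of a subspace from its successive images.
-/

namespace Pool.Agent.V7.BE

open Finset Module Pool.Agent.V7

/-! ### Telescoping -/

section tele

variable {V V' : Type*} [AddCommGroup V] [Module ℂ V] [AddCommGroup V'] [Module ℂ V']

/-- The successive kernels. -/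
def cut (φ : ℕ → V →ₗ[ℂ] V') (E : Submodule ℂ V) : ℕ → Submodule ℂ V
  | 0 => E
  | n + 1 => cut φ E n ⊓ LinearMap.ker (φ n)

theorem mem_cut (φ : ℕ → V →ₗ[ℂ] V') (E : Submodule ℂ V) (n : ℕ) (v : V) :
    v ∈ cut φ E n ↔ v ∈ E ∧ ∀ a < n, φ a v = 0 := by
  induction n with
  | zero => simp [cut]
  | succ n ih =>
    rw [cut, Submodule.mem_inf, ih, LinearMap.mem_ker]
    constructor
    · rintro ⟨⟨h1, h2⟩, h3⟩
      refine ⟨h1, fun a ha => ?_⟩
      rcases Nat.lt_succ_iff_lt_or_eq.1 ha with h | h
      · exact h2 a h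
      · rw [h]
        exact h3
    · rintro ⟨h1, h2⟩
      exact ⟨⟨h1, fun a ha => h2 a (by omega)⟩, h2 n (by omega)⟩

theorem finrank_map_add (P : Submodule ℂ V) [FiniteDimensional ℂ P] (φ : V →ₗ[ℂ] V') :
    finrank ℂ (P.map φ) + finrank ℂ (P ⊓ LinearMap.ker φ : Submodule ℂ V) = finrank ℂ P := by
  have h := LinearMap.finrank_range_add_finrank_ker (φ.domRestrict P)
  have h1 : LinearMap.range (φ.domRestrict P) = P.map φ := by
    ext x
    constructor
    · rintro ⟨v, rfl⟩
      exact ⟨v.1, v.2, rfl⟩
    · rintro ⟨v, hv, rfl⟩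
      exact ⟨⟨v, hv⟩, rfl⟩
  have h2 : finrank ℂ (LinearMap.ker (φ.domRestrict P)) =
      finrank ℂ (P ⊓ LinearMap.ker φ : Submodule ℂ V) := by
    have h3 : (LinearMap.ker (φ.domRestrict P)).map P.subtype = P ⊓ LinearMap.ker φ := by
      ext x
      constructor
      · rintro ⟨v, hv, rfl⟩
        exact ⟨v.2, hv⟩
      · rintro ⟨hx, hx'⟩
        exact ⟨⟨x, hx⟩, hx', rfl⟩
    rw [← h3]
    exact (LinearEquiv.finrank_eq (Submodule.equivMapOfInjective P.subtype
      P.injective_subtype _))
  rw [h1, h2] at h
  exact h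

theorem tele [FiniteDimensional ℂ V] (φ : ℕ → V →ₗ[ℂ] V') (E : Submodule ℂ V) (n : ℕ) :
    finrank ℂ E = ∑ a ∈ range n, finrank ℂ ((cut φ E a).map (φ a)) + finrank ℂ (cut φ E n) := by
  induction n with
  | zero =>
    rw [range_zero, sum_empty, zero_add]
    rfl
  | succ n ih =>
    rw [sum_range_succ, add_assoc, cut, finrank_map_add (cut φ E n) (φ n)]
    exact ih

end tele

/-! ### Directions -/

section dir

variable {ι : Type} [Fintype ι] [DecidableEq ι] {c : ℕ}

/-- The tensor `e_a ⊗ w` (slot `i`), for `w` independent of the slot `i`. -/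
noncomputable def ep (i : ι) (a : Fin c) : ((ι → Fin c) → ℂ) →ₗ[ℂ] ((ι → Fin c) → ℂ) where
  toFun w s := if s i = a then w s else 0
  map_add' v w := by
    funext s
    simp only [Pi.add_apply]
    split_ifs <;> simp
  map_smul' x v := by
    funext s
    simp only [Pi.smul_apply, smul_eq_mul, RingHom.id_apply]
    split_ifs <;> simp

theorem ep_apply (i : ι) (a : Fin c) (w : (ι → Fin c) → ℂ) (s : ι → Fin c) :
    ep i a w s = if s i = a then w s else 0 := rfl

theorem Dk_single (i : ι) (a : Fin c) (v : (ι → Fin c) → ℂ) (s : ι → Fin c) :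
    Dk i (Pi.single a 1) v s = v (Function.update s i a) := by
  rw [Dk_apply, sum_eq_single a]
  · simp
  · intro b _ hb
    rw [Pi.single_eq_of_ne hb, zero_mul]
  · intro h
    exact absurd (mem_univ a) h

theorem sum_ep (i : ι) (v : (ι → Fin c) → ℂ) :
    ∑ a, ep i a (Dk i (Pi.single a 1) v) = v := by
  funext s
  rw [Finset.sum_apply, sum_eq_single (s i)]
  · rw [ep_apply, if_pos rfl, Dk_single, Function.update_eq_self]
  · intro b _ hb
    rw [ep_apply, if_neg hb.symm]
  · intro h
    exact absurd (mem_univ _) h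

theorem Dk_ep (i : ι) (x : Fin c → ℂ) (a : Fin c) (w : (ι → Fin c) → ℂ)
    (hw : ∀ s b, w (Function.update s i b) = w s) :
    Dk i x (ep i a w) = x a • w := by
  funext s
  rw [Dk_apply, sum_eq_single a]
  · rw [ep_apply, Function.update_self, if_pos rfl, hw, Pi.smul_apply, smul_eq_mul]
  · intro b _ hb
    rw [ep_apply, Function.update_self, if_neg hb, mul_zero]
  · intro h
    exact absurd (mem_univ _) h

/-- If contraction never has rank greater than `dim E / c` then `E` is saturated in the factor. -/
theorem closed_of_le (hc : 0 < c) (E : Submodule ℂ ((ι → Fin c) → ℂ)) (i : ι)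
    (h : ∀ x : Fin c → ℂ, x ≠ 0 → c * finrank ℂ (E.map (Dk i x)) ≤ finrank ℂ E)
    (a b : Fin c) {v : (ι → Fin c) → ℂ} (hv : v ∈ E) : ep i a (Dk i (Pi.single b 1) v) ∈ E := by
  classical
  set Ea : Fin c → Submodule ℂ ((ι → Fin c) → ℂ) := fun a => E.map (Dk i (Pi.single a 1)) with hEa
  set F := E.map (Dk i (fun _ : Fin c => (1 : ℂ))) with hF
  have hne : ∀ a : Fin c, (Pi.single a 1 : Fin c → ℂ) ≠ 0 := fun a h => by
    have := congrFun h a
    simp at this
  have hne1 : (fun _ : Fin c => (1 : ℂ)) ≠ 0 := fun h => by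
    have := congrFun h ⟨0, hc⟩
    simp at this
  have h1 : ∀ a, c * finrank ℂ (Ea a) ≤ finrank ℂ E := fun a => h _ (hne a)
  have h2 : c * finrank ℂ F ≤ finrank ℂ E := h _ hne1
  let L : (∀ a, Ea a) →ₗ[ℂ] ((ι → Fin c) → ℂ) :=
    ∑ a, (ep i a) ∘ₗ (Ea a).subtype ∘ₗ LinearMap.proj a
  have hL : ∀ w, L w = ∑ a, ep i a (w a : (ι → Fin c) → ℂ) := by
    intro w
    simp [L, LinearMap.sum_apply]
  have hEL : E ≤ LinearMap.range L := by
    intro u hu
    refine ⟨fun a => ⟨Dk i (Pi.single a 1) u, ⟨u, hu, rfl⟩⟩, ?_⟩
    rw [hL]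
    exact sum_ep i u
  have hdim : finrank ℂ (∀ a, Ea a) = ∑ a, finrank ℂ (Ea a) := Module.finrank_pi_fintype ℂ
  have hsum : ∑ a, finrank ℂ (Ea a) ≤ finrank ℂ E := by
    have : c * ∑ a, finrank ℂ (Ea a) ≤ c * finrank ℂ E := by
      rw [mul_sum]
      calc ∑ a, c * finrank ℂ (Ea a) ≤ ∑ _a : Fin c, finrank ℂ E := sum_le_sum fun a _ => h1 a
        _ = c * finrank ℂ E := by simp
    exact Nat.le_of_mul_le_mul_left this hc
  have hrange : finrank ℂ (LinearMap.range L) ≤ finrank ℂ E := by
    have := LinearMap.finrank_range_le L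
    omega
  have hEq : E = LinearMap.range L := Submodule.eq_of_le_of_finrank_le hEL hrange
  have hge : finrank ℂ E ≤ ∑ a, finrank ℂ (Ea a) := by
    have := LinearMap.finrank_range_le L
    rw [← hEq] at this
    omega
  have hep : ∀ a, ∀ w ∈ Ea a, ep i a w ∈ E := by
    intro a w hw
    rw [hEq]
    refine ⟨Pi.single a ⟨w, hw⟩, ?_⟩
    rw [hL, sum_eq_single a]
    · simp
    · intro b _ hb
      rw [Pi.single_eq_of_ne hb]
      simp
    · intro h
      exact absurd (mem_univ _) h
  have hindep : ∀ a, ∀ w ∈ Ea a, ∀ s b, w (Function.update s i b) = w s := by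
    rintro a w ⟨u, _, rfl⟩ s b
    exact Dk_update i _ u s b
  have hle : ∀ a, Ea a ≤ F := by
    intro a w hw
    refine ⟨ep i a w, hep a w hw, ?_⟩
    rw [Dk_ep i _ a w (hindep a w hw), one_smul]
  have hle' : ∀ a, finrank ℂ (Ea a) ≤ finrank ℂ F := fun a => Submodule.finrank_mono (hle a)
  have hall : ∀ a, finrank ℂ (Ea a) = finrank ℂ F := by
    intro a
    by_contra hcon
    have hlt : finrank ℂ (Ea a) < finrank ℂ F := lt_of_le_of_ne (hle' a) hcon
    have : ∑ a, finrank ℂ (Ea a) < ∑ _a : Fin c, finrank ℂ F :=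
      sum_lt_sum (fun a _ => hle' a) ⟨a, mem_univ a, hlt⟩
    rw [sum_const, card_univ, Fintype.card_fin, smul_eq_mul] at this
    omega
  have hEF : ∀ a, Ea a = F := fun a => Submodule.eq_of_le_of_finrank_eq (hle a) (hall a)
  apply hep a
  rw [hEF a, ← hEF b]
  exact ⟨v, hv, rfl⟩

/-- A nonzero subspace which is saturated in all factors is everything. -/
theorem eq_top_of_closed (E : Submodule ℂ ((ι → Fin c) → ℂ)) (h0 : E ≠ ⊥)
    (h : ∀ (i : ι) (a b : Fin c), ∀ v ∈ E, ep i a (Dk i (Pi.single b 1) v) ∈ E) : E = ⊤ := by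
  classical
  obtain ⟨v, hv, hv0⟩ := (Submodule.ne_bot_iff E).1 h0
  obtain ⟨s0, hs0⟩ : ∃ s, v s ≠ 0 := by
    by_contra hcon
    push Not at hcon
    exact hv0 (funext hcon)
  have key : ∀ (t : ι → Fin c) (I : Finset ι), (fun s : ι → Fin c =>
      if ∀ i ∈ I, s i = t i then v (fun j => if j ∈ I then s0 j else s j) else 0) ∈ E := by
    intro t I
    induction I using Finset.induction_on with
    | empty => simpa using hv
    | insert i I hi ih =>
      have h1 := h i (t i) (s0 i) _ ih
      have h2 : ep i (t i) (Dk i (Pi.single (s0 i) 1) (fun s : ι → Fin c =>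
          if ∀ i ∈ I, s i = t i then v (fun j => if j ∈ I then s0 j else s j) else 0)) =
          fun s : ι → Fin c => if ∀ i' ∈ insert i I, s i' = t i' then
            v (fun j => if j ∈ insert i I then s0 j else s j) else 0 := by
        funext s
        rw [ep_apply, Dk_single]
        by_cases hsi : s i = t i
        · rw [if_pos hsi]
          by_cases hI : ∀ i' ∈ I, s i' = t i'
          · have e1 : ∀ i' ∈ I, Function.update s i (s0 i) i' = t i' := by
              intro i' hi'
              rw [Function.update_of_ne]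
              · exact hI i' hi'
              · rintro rfl
                exact hi hi'
            have e2 : ∀ i' ∈ insert i I, s i' = t i' := by
              intro i' hi'
              rcases mem_insert.1 hi' with h | h
              · rw [h]
                exact hsi
              · exact hI i' h
            rw [if_pos e1, if_pos e2]
            congr 1
            funext j
            by_cases hj : j = i
            · subst hj
              rw [if_neg hi, if_pos (mem_insert_self _ _), Function.update_self]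
            · by_cases hjI : j ∈ I
              · rw [if_pos hjI, if_pos (mem_insert_of_mem hjI)]
              · rw [if_neg hjI, if_neg, Function.update_of_ne hj]
                intro h
                rcases mem_insert.1 h with h | h
                · exact hj h
                · exact hjI h
          · rw [if_neg, if_neg]
            · intro h
              exact hI fun i' hi' => h i' (mem_insert_of_mem hi')
            · intro h
              apply hI
              intro i' hi'
              have := h i' hi'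
              rwa [Function.update_of_ne] at this
              rintro rfl
              exact hi hi'
        · rw [if_neg hsi, if_neg]
          intro h
          exact hsi (h i (mem_insert_self _ _))
      rw [h2] at h1
      exact h1
  rw [eq_top_iff]
  intro w _
  have hsing : ∀ t, (Pi.single t 1 : (ι → Fin c) → ℂ) ∈ E := by
    intro t
    have h1 := key t univ
    have h2 : (fun s : ι → Fin c => if ∀ i ∈ (univ : Finset ι), s i = t i then
        v (fun j => if j ∈ (univ : Finset ι) then s0 j else s j) else 0) =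
        v s0 • (Pi.single t 1 : (ι → Fin c) → ℂ) := by
      funext s
      by_cases hst : s = t
      · subst hst
        simp
      · rw [if_neg, Pi.smul_apply, Pi.single_eq_of_ne hst, smul_zero]
        intro h
        exact hst (funext fun i => h i (mem_univ i))
    rw [h2] at h1
    have h3 := E.smul_mem (v s0)⁻¹ h1
    rwa [smul_smul, inv_mul_cancel₀ hs0, one_smul] at h3
  rw [pi_eq_sum_univ w]
  refine E.sum_mem fun t _ => ?_
  have h1 := E.smul_mem (w t) (hsing t)
  convert h1 using 1
  congr 1
  funext s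
  by_cases hst : t = s
  · subst hst
    simp
  · rw [if_neg hst, Pi.single_eq_of_ne (Ne.symm hst)]

theorem exists_dir (hc : 0 < c) (E : Submodule ℂ ((ι → Fin c) → ℂ)) (h0 : E ≠ ⊥) (h1 : E ≠ ⊤) :
    ∃ (i : ι) (x : Fin c → ℂ), x ≠ 0 ∧ finrank ℂ E < c * finrank ℂ (E.map (Dk i x)) := by
  by_contra hcon
  push Not at hcon
  exact h1 (eq_top_of_closed E h0 fun i a b v hv =>
    closed_of_le hc E i (fun x hx => hcon i x hx) a b hv)

end dir

end Pool.Agent.V7.BE
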