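import Pool.Agent.V7.BE.Slice
import Pool.Agent.V7.BE.Temp
import Pool.Agent.V7.AL.Tens

/-!
# V7, block BETA, module Gen: the result of the tensor part

`exists_omega`: for every `q₀` there is a configuration `Ω` for `q = M r q₀` blocks such that for all
`E ≠ ⊥, ⊤` the sum over all `α` of `finrank (KE (res Ω α) E)` is at most
`lam * finrank E * binom(q, M) - q₀ ^ M`.
-/

namespace Pool.Agent.V7.BE

open Finset Module Pool.Agent.V7 Pool.Agent.H51.TB

variable {k M c : ℕ}

theorem tk (hM : 1 ≤ M) (hc : 0 < c) (hdiv : (Wt M).factorial ∣ c) : TK c (Wt M) := by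
  intro ι _ _ w hsum hint
  refine tens_kill ?_ hc hdiv w hsum hint
  unfold Wt
  have : 0 < (2 * M - 1).choose M := Nat.choose_pos (by omega)
  omega

/-- Generic exactness. -/
theorem gen_exact (hk : k + 1 = M) (hc : 0 < c) (hdiv : (Wt M).factorial ∣ c) :
    Gn (Finset (Slot k M) × Fin (lam M c)) (Slot k M × Fin c) fun p =>
      Exact (fun S t => p (S, t)) (fun t => p (S0 k M, t)) := by
  classical
  have hC : 0 < (2 * M - 1).choose M := Nat.choose_pos (by omega)
  have hW : 0 < Wt M := by
    unfold Wt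
    omega
  have hcard : Fintype.card (Slot k M) = 2 * M - 1 := by
    rw [Fintype.card_sum, Fintype.card_fin, Fintype.card_fin]
    omega
  let w : Finset (Slot k M) → ℕ := fun S => if S.card = M then 2 else 0
  have hsum : ∑ S, w S = Wt M := by
    show ∑ S : Finset (Slot k M), (if S.card = M then 2 else 0) = Wt M
    rw [← sum_filter, sum_const, smul_eq_mul]
    have : (univ.filter fun S : Finset (Slot k M) => S.card = M) =
        (univ : Finset (Slot k M)).powersetCard M := by
      ext S
      simp [mem_powersetCard]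
    rw [this, card_powersetCard, card_univ, hcard]
    unfold Wt
    ring
  have hint : Inter w := by
    intro S S' hS hS'
    left
    have h1 : S.card = M := by
      by_contra h
      exact hS (if_neg h)
    have h2 : S'.card = M := by
      by_contra h
      exact hS' (if_neg h)
    by_contra hcon
    rw [not_nonempty_iff_eq_empty, ← disjoint_iff_inter_eq_empty] at hcon
    have h3 := card_union_of_disjoint hcon
    have h4 : (S ∪ S').card ≤ 2 * M - 1 := by
      rw [← hcard, ← card_univ]
      exact card_le_card (subset_univ _)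
    omega
  have hWc : Wt M ∣ c ^ M := dvd_pow (dvd_trans (Nat.dvd_factorial hW le_rfl) hdiv) (by omega)
  have hn : ∀ S : Finset (Slot k M), S.card = M → w S * c ^ S.card / Wt M = lam M c := by
    intro S hS
    obtain ⟨u, hu⟩ := hWc
    have h1 : w S = 2 := if_pos hS
    rw [h1, hS]
    unfold lam
    rw [hu]
    have e1 : 2 * (Wt M * u) = Wt M * (2 * u) := by ring
    have e2 : Wt M * u = (2 * M - 1).choose M * (2 * u) := by
      unfold Wt
      ring
    rw [e1, Nat.mul_div_cancel_left _ hW, e2, Nat.mul_div_cancel_left _ hC]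
  have hlt : ∀ x : TIdx (Slot k M) c (Wt M) w, x.1.card = M := by
    rintro ⟨S, t⟩
    by_contra h
    have h1 : w S = 0 := if_neg h
    have h2 := t.2
    simp only [h1, zero_mul, Nat.zero_div] at h2
    exact absurd h2 (Nat.not_lt_zero _)
  let ψ : TIdx (Slot k M) c (Wt M) w → Finset (Slot k M) × Fin (lam M c) := fun x =>
    (x.1, Fin.cast (hn x.1 (hlt x)) x.2)
  have hψ : Function.Injective ψ := by
    rintro ⟨S, t⟩ ⟨S', t'⟩ h
    rw [Prod.mk.injEq] at h
    obtain ⟨h1, h2⟩ := h
    simp only at h1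
    subst h1
    congr 1
    exact Fin.ext (congrArg (fun z : Fin (lam M c) => z.val) h2)
  have h1 := (gn_gd (TSys (Slot k M) c) (fun x : TIdx (Slot k M) c (Wt M) w => x.1)).comap ψ hψ
  rw [tk (by omega) hc hdiv (Slot k M) w hsum hint] at h1
  refine h1.mono fun p hp => ?_
  intro G hG hl
  have h2 : (TSys (Slot k M) c).V (fun x : TIdx (Slot k M) c (Wt M) w => x.1)
      (fun x => p (ψ x)) = ⊥ := Submodule.finrank_eq_zero.1 hp
  have h3 : G ∈ (TSys (Slot k M) c).V (fun x : TIdx (Slot k M) c (Wt M) w => x.1)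
      (fun x => p (ψ x)) := by
    rw [mem_TSys]
    rintro ⟨S, t⟩ v
    have hS := hlt ⟨S, t⟩
    simp only at hS
    by_cases hS0 : S = S0 k M
    · subst hS0
      exact hl (Fin.cast (hn _ hS) t) v
    · exact hG S hS hS0 (Fin.cast (hn S hS) t) v
  rw [h2, Submodule.mem_bot] at h3
  exact h3

theorem exists_omega (hk : k + 1 = M) (hc : 0 < c) (hdiv : (Wt M).factorial ∣ c) :
    ∃ r : ℕ, 0 < r ∧ ∀ q₀ : ℕ, ∃ Ω : PtsQ k M c (M * r * q₀),
      ∀ E : Submodule ℂ ((Fin k → Fin c) → ℂ), E ≠ ⊥ → E ≠ ⊤ →
        ∑ α : Fin M ↪o Fin (M * r * q₀), finrank ℂ (KE (res Ω α) E) + q₀ ^ M ≤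
          lam M c * finrank ℂ E * (M * r * q₀).choose M := by
  refine exists_good (by omega) ?_ ?_
  · refine (gen_exact hk hc hdiv).mono fun p hp E => ?_
    exact KE_le hc hp E
  · intro E h0 h1
    exact strict (tk (by omega) hc hdiv) hk hc hdiv E h0 h1

end Pool.Agent.V7.BE
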