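import Pool.Agent.V7.BE.Pos
import Pool.Agent.V7.BE.Gen

/-!
# V7, block BETA, module Form: the dimension at the block configuration and near it

`fin_bound`: the solutions whose coefficient vectors lie in `F`, in terms of the tensors `KE`.
`near_SF`: a bound for all `F` at one position holds at all positions near it.
-/

set_option autoImplicit false
set_option linter.unusedSectionVars false

namespace Pool.Agent.V7.BE

open Finset Module MvPolynomial Pool.Agent.H51.TB Pool.Agent.V7 Topology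
open Pool.Agent.V7.Top (IsB SF)

theorem le_card_oemb (M q : ℕ) : q.choose M ≤ Fintype.card (Fin M ↪o Fin q) := by
  classical
  have h1 : q.choose M = Fintype.card {s : Finset (Fin q) // s.card = M} := by
    rw [Fintype.card_finset_len, Fintype.card_fin]
  rw [h1]
  refine Fintype.card_le_of_injective
    (fun s : {s : Finset (Fin q) // s.card = M} => s.1.orderEmbOfFin s.2) ?_
  intro s s' h
  apply Subtype.ext
  have h2 := Finset.range_orderEmbOfFin s.1 s.2
  have h3 := Finset.range_orderEmbOfFin s'.1 s'.2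
  have h4 : s.1.orderEmbOfFin s.2 = s'.1.orderEmbOfFin s'.2 := h
  rw [h4, h3] at h2
  exact_mod_cast h2.symm

variable {ν : Type} [Fintype ν] [DecidableEq ν] {k M c m q : ℕ}
variable {φ : (Fin k × Fin c) ⊕ Fin m ≃ ν} {vz : Fin q × Fin c → Fin m} {β : ν → ℕ}

/-- The exponents of the form `mn`. -/
def IsMn (φ : (Fin k × Fin c) ⊕ Fin m ≃ ν) (vz : Fin q × Fin c → Fin m) (M : ℕ) (β : ν → ℕ)
    (e : {a // a ∈ Pool.Agent.V7.Ex β (2 * M - 1) k}) : Prop :=
  ∃ (α : Fin M ↪o Fin q) (w : Slot k M → Fin c), e.1 = mn (vr φ vz) α w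

open Classical in
theorem card_junk (hβ : IsB φ β) (hvz : Function.Injective vz) (hk : k + 1 = M) :
    Fintype.card {e // ¬ IsMn φ vz M β e} + c ^ (k + M) * q.choose M ≤
      (Pool.Agent.V7.Ex β (2 * M - 1) k).card := by
  have h1 := Fintype.card_congr (Equiv.sumCompl (IsMn φ vz M β))
  rw [Fintype.card_sum, Fintype.card_coe] at h1
  have h2 : Fintype.card ((Fin M ↪o Fin q) × (Slot k M → Fin c)) ≤
      Fintype.card {e // IsMn φ vz M β e} := by
    refine Fintype.card_le_of_injective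
      (fun x => ⟨⟨mn (vr φ vz) x.1 x.2, mn_mem hβ hvz hk x.1 x.2⟩, x.1, x.2, rfl⟩) ?_
    rintro ⟨α, w⟩ ⟨α', w'⟩ h
    have h3 : mn (vr φ vz) α w = mn (vr φ vz) α' w' :=
      congrArg (fun z : {e // IsMn φ vz M β e} => z.1.1) h
    have h4 := mn_inj (vr_inj φ hvz) h3
    rw [h4.1, h4.2]
  rw [Fintype.card_prod, Fintype.card_fun, Fintype.card_fin, Fintype.card_sum, Fintype.card_fin,
    Fintype.card_fin] at h2
  have h3 := Nat.mul_le_mul_right (c ^ (k + M)) (le_card_oemb M q)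
  rw [mul_comm (q.choose M)] at h3
  omega

theorem fin_bound (hβ : IsB φ β) (hvz : Function.Injective vz) (hk : k + 1 = M)
    (V : Submodule ℂ ({e // e ∈ Pool.Agent.V7.Ex β (2 * M - 1) k} → ℂ)) (Ω : PtsQ k M c q)
    (hV : ∀ f ∈ V, (∀ e, f e ≠ 0 → IsMn φ vz M β e) →
      ∀ (α : Fin M ↪o Fin q) (S : Finset (Slot k M)), S.card = M → S ≠ S0 k M → ∀ t w,
        ctr S (res Ω α S t) (fun w' => f ⟨mn (vr φ vz) α w', mn_mem hβ hvz hk α w'⟩) w = 0)
    (F : Submodule ℂ ((Fin k → Fin c) → ℂ)) :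
    finrank ℂ (SF φ V F) + c ^ (k + M) * q.choose M ≤
      (Pool.Agent.V7.Ex β (2 * M - 1) k).card +
        ∑ α : Fin M ↪o Fin q, finrank ℂ (KE (res Ω α) F) := by
  classical
  set W := SF φ V F with hW
  let ρ : W →ₗ[ℂ] ({e // ¬ IsMn φ vz M β e} → ℂ) :=
    (LinearMap.funLeft ℂ ℂ Subtype.val) ∘ₗ W.subtype
  have h1 := ρ.finrank_range_add_finrank_ker
  have h2 : finrank ℂ (LinearMap.range ρ) ≤ Fintype.card {e // ¬ IsMn φ vz M β e} :=
    (Submodule.finrank_le _).trans (Module.finrank_fintype_fun_eq_card ℂ).le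
  let L : (α : Fin M ↪o Fin q) → ({e // e ∈ Pool.Agent.V7.Ex β (2 * M - 1) k} → ℂ) →ₗ[ℂ]
      ((Slot k M → Fin c) → ℂ) := fun α =>
    LinearMap.funLeft ℂ ℂ fun w' => ⟨mn (vr φ vz) α w', mn_mem hβ hvz hk α w'⟩
  have hker : ∀ x : LinearMap.ker ρ, ∀ e, ((x : W) : {e // e ∈ Pool.Agent.V7.Ex β (2 * M - 1) k} → ℂ) e ≠ 0 →
      IsMn φ vz M β e := by
    intro x e he
    by_contra hcon
    apply he
    have h3 : ρ x.1 = 0 := x.2
    exact congrFun h3 ⟨e, hcon⟩
  have hmem : ∀ (α : Fin M ↪o Fin q) (x : LinearMap.ker ρ),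
      (L α ∘ₗ W.subtype ∘ₗ (LinearMap.ker ρ).subtype) x ∈ KE (res Ω α) F := by
    intro α x
    have hx := (Pool.Agent.V7.Top.mem_SF hβ hk V F _).1 (x : W).2
    refine ⟨fun u => ?_, fun S h3 h4 t w => ?_⟩
    · have h5 := hx.2 (zx vz α u) (sum_zx hvz α u)
      have h6 : (fun s => (L α ∘ₗ W.subtype ∘ₗ (LinearMap.ker ρ).subtype) x (Sum.elim s u)) =
          fun a => ((x : W) : {e // e ∈ Pool.Agent.V7.Ex β (2 * M - 1) k} → ℂ)
            ⟨Pool.Agent.V7.Top.sl φ a (zx vz α u),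
              Pool.Agent.V7.Top.sl_mem hβ hk a (sum_zx hvz α u)⟩ := by
        funext s
        show ((x : W) : {e // e ∈ Pool.Agent.V7.Ex β (2 * M - 1) k} → ℂ)
          ⟨mn (vr φ vz) α (Sum.elim s u), _⟩ = _
        exact congrArg (fun e => ((x : W) : {e // e ∈ Pool.Agent.V7.Ex β (2 * M - 1) k} → ℂ) e)
          (Subtype.ext (sl_zx φ vz α s u).symm)
      rw [h6]
      exact h5
    · exact hV _ hx.1 (hker x) α S h3 h4 t w
  let θ : LinearMap.ker ρ →ₗ[ℂ] ((α : Fin M ↪o Fin q) → KE (res Ω α) F) :=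
    LinearMap.pi fun α => LinearMap.codRestrict (KE (res Ω α) F)
      (L α ∘ₗ W.subtype ∘ₗ (LinearMap.ker ρ).subtype) (hmem α)
  have hθ : Function.Injective θ := by
    intro x y hxy
    apply Subtype.ext
    apply Subtype.ext
    funext e
    show ((x : W) : {e // e ∈ Pool.Agent.V7.Ex β (2 * M - 1) k} → ℂ) e =
      ((y : W) : {e // e ∈ Pool.Agent.V7.Ex β (2 * M - 1) k} → ℂ) e
    by_cases he : IsMn φ vz M β e
    · obtain ⟨α, w, hα⟩ := he
      have h3 := congrArg Subtype.val (congrFun hxy α)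
      have h4 := congrFun h3 w
      have h5 : e = ⟨mn (vr φ vz) α w, mn_mem hβ hvz hk α w⟩ := Subtype.ext hα
      rw [h5]
      exact h4
    · have h3 : ∀ z : LinearMap.ker ρ,
          ((z : W) : {e // e ∈ Pool.Agent.V7.Ex β (2 * M - 1) k} → ℂ) e = 0 := by
        intro z
        by_contra hne
        exact he (hker z e hne)
      rw [h3 x, h3 y]
  have h3 := LinearMap.finrank_le_finrank_of_injective hθ
  rw [Module.finrank_pi_fintype] at h3
  have h4 := card_junk hβ hvz hk (c := c) (q := q) (M := M)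
  omega

/-- A bound for all `F` is an open condition. -/
theorem near_SF (hβ : IsB φ β) (hk : k + 1 = M) {κ : Type} [Fintype κ] (rest : κ → Kd)
    (b : ℕ → ℕ) (p₁ : κ → ν ⊕ ν → ℂ)
    (h : ∀ F : Submodule ℂ ((Fin k → Fin c) → ℂ),
      finrank ℂ (SF φ ((LS M β k).V rest p₁) F) ≤ b (finrank ℂ F)) :
    ∀ᶠ p in 𝓝 p₁, ∀ F : Submodule ℂ ((Fin k → Fin c) → ℂ),
      finrank ℂ (SF φ ((LS M β k).V rest p) F) ≤ b (finrank ℂ F) := by
  classical
  have hfin : ∀ i : κ, Finite ((LS M β k).R (rest i)) := fun i => (LS M β k).fin _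
  have : ∀ i : κ, Fintype ((LS M β k).R (rest i)) := fun i => Fintype.ofFinite _
  let A : (κ → ν ⊕ ν → ℂ) → Matrix (Σ i : κ, (LS M β k).R (rest i))
      {e // e ∈ Pool.Agent.V7.Ex β (2 * M - 1) k} ℂ :=
    fun p x e => eval (p x.1) ((LS M β k).co (rest x.1) x.2 e)
  have hA : Continuous A := by
    refine continuous_matrix fun x e => ?_
    exact (MvPolynomial.continuous_eval _).comp (continuous_apply x.1)
  have hU : Finite {α : Fin m → ℕ // ∑ t, α t = M} :=
    finite_lt M _ fun α hα => hα.le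
  have : Fintype {α : Fin m → ℕ // ∑ t, α t = M} := Fintype.ofFinite _
  let σ : {α : Fin m → ℕ // ∑ t, α t = M} → (Fin k → Fin c) →
      {e // e ∈ Pool.Agent.V7.Ex β (2 * M - 1) k} := fun α a =>
    ⟨Pool.Agent.V7.Top.sl φ a α.1, Pool.Agent.V7.Top.sl_mem hβ hk a α.2⟩
  have hK : ∀ p F, SF φ ((LS M β k).V rest p) F = Kx (A p) σ F := by
    intro p F
    ext f
    rw [Pool.Agent.V7.Top.mem_SF hβ hk, mem_Kx, and_comm]
    refine and_congr ?_ ?_
    · exact ⟨fun h u => h u.1 u.2, fun h α hα => h ⟨α, hα⟩⟩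
    · rw [Sys.mem_V]
      constructor
      · intro h
        funext x
        exact h x.1 x.2
      · intro h i r
        exact congrFun h ⟨i, r⟩
  have h1 := Kx_near A hA σ b p₁ (fun F => by rw [← hK]; exact h F)
  refine h1.mono fun p hp F => ?_
  rw [hK]
  exact hp F

end Pool.Agent.V7.BE
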