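import Pool.Agent.V7.BE.Geo
import Pool.Agent.V7.Top.Lin

/-!
# V7, block BETA, module Pos: positions of the points of the level `k = M - 1`

The variables are numbered by `φ`; `vr φ vz` numbers the variables of the first `k` blocks and of `q`
blocks of last variables.  `ptS v S y` is the point with the coordinates `y` on the blocks of `S`.
`ctr_sat`: the conditions of a point of the type `typ S` at the position `posK β (ptS v S y)` give the
contraction of the tensors of all `α` with `S = emα α S'`.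
-/

set_option autoImplicit false
set_option linter.unusedSectionVars false

namespace Pool.Agent.V7.BE

open Finset Pool.Agent.V7 Pool.Agent.H54.V7
open Pool.Agent.V7.Top (IsB)
open Pool.Agent.H18.Ex (tcr)

variable {ν : Type} [Fintype ν] [DecidableEq ν] {k M c m q : ℕ}

/-- The numbering of the variables of the blocks. -/
def vr (φ : (Fin k × Fin c) ⊕ Fin m ≃ ν) (vz : Fin q × Fin c → Fin m)
    (x : (Fin k ⊕ Fin q) × Fin c) : ν :=
  φ (Sum.elim (fun i => Sum.inl (i, x.2)) (fun h => Sum.inr (vz (h, x.2))) x.1)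

theorem vr_inl (φ : (Fin k × Fin c) ⊕ Fin m ≃ ν) (vz : Fin q × Fin c → Fin m) (i : Fin k)
    (t : Fin c) : vr φ vz (Sum.inl i, t) = φ (Sum.inl (i, t)) := rfl

theorem vr_inr (φ : (Fin k × Fin c) ⊕ Fin m ≃ ν) (vz : Fin q × Fin c → Fin m) (h : Fin q)
    (t : Fin c) : vr φ vz (Sum.inr h, t) = φ (Sum.inr (vz (h, t))) := rfl

theorem vr_inj (φ : (Fin k × Fin c) ⊕ Fin m ≃ ν) {vz : Fin q × Fin c → Fin m}
    (hvz : Function.Injective vz) : Function.Injective (vr φ vz) := by
  rintro ⟨i | h, t⟩ ⟨i' | h', t'⟩ e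
  · have h1 : (i, t) = (i', t') := Sum.inl_injective (φ.injective e)
    rw [Prod.mk.injEq] at h1
    rw [h1.1, h1.2]
  · exact absurd (φ.injective e) Sum.inl_ne_inr
  · exact absurd (φ.injective e) Sum.inr_ne_inl
  · have h1 : (h, t) = (h', t') := hvz (Sum.inr_injective (φ.injective e))
    rw [Prod.mk.injEq] at h1
    rw [h1.1, h1.2]

/-- The point with the coordinates `y` on the blocks of `S`. -/
noncomputable def ptS (v : (Fin k ⊕ Fin q) × Fin c → ν) (S : Finset (Fin k ⊕ Fin q))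
    (y : (Fin k ⊕ Fin q) × Fin c → ℂ) : ν → ℂ :=
  Function.extend v (fun x => if x.1 ∈ S then y x else 0) 0

theorem ptS_apply {v : (Fin k ⊕ Fin q) × Fin c → ν} (hv : Function.Injective v)
    (S : Finset (Fin k ⊕ Fin q)) (y : (Fin k ⊕ Fin q) × Fin c → ℂ) (x : (Fin k ⊕ Fin q) × Fin c) :
    ptS v S y (v x) = if x.1 ∈ S then y x else 0 :=
  hv.extend_apply _ _ _

theorem ptS_ne {v : (Fin k ⊕ Fin q) × Fin c → ν} (hv : Function.Injective v)
    {S : Finset (Fin k ⊕ Fin q)} {y : (Fin k ⊕ Fin q) × Fin c → ℂ} {s : ν} (h : ptS v S y s ≠ 0) :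
    ∃ x ∈ S, ∃ t, v (x, t) = s := by
  by_cases h1 : ∃ a, v a = s
  · obtain ⟨⟨x, t⟩, rfl⟩ := h1
    rw [ptS_apply hv] at h
    split_ifs at h with h2
    · exact ⟨x, h2, t, rfl⟩
    · exact absurd rfl h
  · exact absurd (Function.extend_apply' _ _ _ h1) h

/-- The position of a point of a given kind. -/
noncomputable def posK (β : ν → ℕ) (P : ν → ℂ) : Kd → ν ⊕ ν → ℂ
  | .ord _ _ => Sum.elim P 0
  | .sw i _ => Sum.elim P fun s => if β s = i then P s else 0

/-- The type of the points on the blocks of `S`. -/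
def typ (S : Finset (Fin k ⊕ Fin q)) : Finset ℕ :=
  (univ.filter fun i : Fin k => Sum.inl i ∉ S).map Fin.valEmbedding

theorem mem_typ {S : Finset (Fin k ⊕ Fin q)} {j : ℕ} :
    j ∈ typ S ↔ ∃ i : Fin k, Sum.inl i ∉ S ∧ i.1 = j := by
  unfold typ
  rw [mem_map]
  constructor
  · rintro ⟨i, hi, rfl⟩
    exact ⟨i, (mem_filter.1 hi).2, rfl⟩
  · rintro ⟨i, hi, rfl⟩
    exact ⟨i, mem_filter.2 ⟨mem_univ i, hi⟩, rfl⟩

theorem typ_lt {S : Finset (Fin k ⊕ Fin q)} {j : ℕ} (h : j ∈ typ S) : j < k := by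
  obtain ⟨i, _, rfl⟩ := mem_typ.1 h
  exact i.2

theorem notMem_typ {S : Finset (Fin k ⊕ Fin q)} {i : Fin k} :
    i.1 ∉ typ S ↔ Sum.inl i ∈ S := by
  rw [mem_typ]
  constructor
  · intro h
    by_contra h1
    exact h ⟨i, h1, rfl⟩
  · rintro h ⟨i', h1, h2⟩
    rw [Fin.ext h2] at h1
    exact h1 h

/-- The kinds which impose the conditions of the type `I`. -/
def Gdk (M k : ℕ) (I : Finset ℕ) (κ : Kd) : Prop := κ = .ord M I ∨ ∃ i < k, κ = .sw i I

variable {φ : (Fin k × Fin c) ⊕ Fin m ≃ ν} {vz : Fin q × Fin c → Fin m} {β : ν → ℕ}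

/-- The block number of a variable of a block of `S` is not in the type of `S`. -/
theorem beta_notMem (hβ : IsB φ β) {S : Finset (Fin k ⊕ Fin q)} {x : Fin k ⊕ Fin q} (hx : x ∈ S)
    (t : Fin c) : β (vr φ vz (x, t)) ∉ typ S := by
  rcases x with i | h
  · rw [vr_inl, hβ.1 (i, t)]
    exact notMem_typ.2 hx
  · intro h1
    have h2 := typ_lt h1
    rw [vr_inr] at h2
    have h3 := hβ.2 (vz (h, t))
    omega

theorem beta_eq (hβ : IsB φ β) {x : Fin k ⊕ Fin q} {t : Fin c} {i : ℕ} (hi : i < k)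
    (h : β (vr φ vz (x, t)) = i) : x = Sum.inl ⟨i, hi⟩ := by
  rcases x with i' | h'
  · rw [vr_inl, hβ.1 (i', t)] at h
    exact congrArg Sum.inl (Fin.ext h)
  · rw [vr_inr] at h
    have h3 := hβ.2 (vz (h', t))
    omega

/-- The contraction of the tensor of `α` from the conditions of a point. -/
theorem ctr_sat (hβ : IsB φ β) (hvz : Function.Injective vz) (hk : k + 1 = M) (hM : 2 ≤ M)
    {A : Finset (ν → ℕ)} {f : {a // a ∈ A} → ℂ}
    (hA : ∀ (α : Fin M ↪o Fin q) (w : Slot k M → Fin c), mn (vr φ vz) α w ∈ A)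
    (hf : ∀ e, f e ≠ 0 → ∃ (α : Fin M ↪o Fin q) (w : Slot k M → Fin c), e.1 = mn (vr φ vz) α w)
    (α : Fin M ↪o Fin q) {S : Finset (Slot k M)} (hS : S.card = M)
    (y : (Fin k ⊕ Fin q) × Fin c → ℂ) {κ : Kd} (hκ : Gdk M k (typ (S.map (emα k α))) κ)
    (hok : κ.Ok M k)
    (hsat : SatK M β κ (posK β (ptS (vr φ vz) (S.map (emα k α)) y) κ) f) (w : Slot k M → Fin c) :
    ctr S (fun x => y (Sum.map id α x.1, x.2))
      (fun w' => f ⟨mn (vr φ vz) α w', hA α w'⟩) w = 0 := by
  classical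
  have hv : Function.Injective (vr φ vz) := vr_inj φ hvz
  set S' := S.map (emα k α) with hS'
  set P := ptS (vr φ vz) S' y with hP
  have hmem : ∀ x ∈ S, emα k α x ∈ S' := fun x hx => mem_map_of_mem _ hx
  have hPv : ∀ x ∈ S, ∀ t, P (vr φ vz (emα k α x, t)) = y (Sum.map id α x, t) := by
    intro x hx t
    rw [hP, ptS_apply hv, if_pos (hmem x hx), emα_apply]
  have hPn : ∀ s, P s ≠ 0 → ∃ x ∈ S, ∃ t, vr φ vz (emα k α x, t) = s := by
    intro s hs
    obtain ⟨x', hx', t, ht⟩ := ptS_ne hv hs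
    obtain ⟨x, hx, rfl⟩ := mem_map.1 hx'
    exact ⟨x, hx, t, ht⟩
  rcases hκ with rfl | ⟨i, hi, rfl⟩
  · refine ctr_of_Fat hv hA hf (by omega) α hS _ (P := msk β (typ S') P) ?_ ?_ hsat w
    · intro x hx t
      unfold msk
      rw [if_neg (beta_notMem hβ (hmem x hx) t)]
      exact hPv x hx t
    · intro s hs
      unfold msk at hs
      split_ifs at hs with h1
      · exact absurd rfl hs
      · exact hPn s hs
  · have hiI : i ∉ typ S' := by
      intro h1
      have := mem_Ico.1 (hok.2 h1)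
      omega
    have hiS' : (Sum.inl ⟨i, hi⟩ : Fin k ⊕ Fin q) ∈ S' :=
      (notMem_typ (i := (⟨i, hi⟩ : Fin k))).1 hiI
    have hiS : (Sum.inl ⟨i, hi⟩ : Slot k M) ∈ S := by
      obtain ⟨x, hx, hx'⟩ := mem_map.1 hiS'
      have h2 : emα k α x = emα k α (Sum.inl ⟨i, hi⟩) := hx'
      have h3 := (emα k α).injective h2
      rwa [h3] at hx
    have hne : ∀ x : Slot k M, x ≠ Sum.inl ⟨i, hi⟩ → ∀ t, β (vr φ vz (emα k α x, t)) ≠ i := by
      intro x hx t h1
      have h2 := beta_eq hβ hi h1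
      have h3 : emα k α x = emα k α (Sum.inl ⟨i, hi⟩) := h2
      exact hx ((emα k α).injective h3)
    refine ctr_of_Sw hv hA hf hk hM α hS hiS _
      (P := msk β (insert i (typ S')) P)
      (V := msk β (typ S') fun s => if β s = i then P s else 0) ?_ ?_ ?_ ?_
      (B := univ.filter fun s => β s = i) ?_ hsat.2 w
    · intro x hx t
      rw [mem_erase] at hx
      unfold msk
      rw [if_neg, hPv x hx.2 t]
      rw [mem_insert]
      rintro (h1 | h1)
      · exact hne x hx.1 t h1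
      · exact beta_notMem hβ (hmem x hx.2) t h1
    · intro s hs
      unfold msk at hs
      split_ifs at hs with h1
      · exact absurd rfl hs
      · obtain ⟨x, hx, t, ht⟩ := hPn s hs
        refine ⟨x, mem_erase.2 ⟨?_, hx⟩, t, ht⟩
        rintro rfl
        apply h1
        rw [mem_insert, ← ht]
        left
        exact hβ.1 (⟨i, hi⟩, t)
    · intro t
      have h1 : β (vr φ vz (emα k α (Sum.inl ⟨i, hi⟩), t)) = i := hβ.1 (⟨i, hi⟩, t)
      unfold msk
      rw [if_neg (beta_notMem hβ (hmem _ hiS) t)]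
      beta_reduce
      rw [if_pos h1]
      exact hPv _ hiS t
    · intro s hs
      unfold msk at hs
      beta_reduce at hs
      split_ifs at hs with h1 h2
      · exact absurd rfl hs
      · obtain ⟨x, hx, t, ht⟩ := hPn s hs
        have h3 : x = Sum.inl ⟨i, hi⟩ := by
          by_contra h4
          apply hne x h4 t
          rw [ht]
          exact h2
        rw [h3] at ht
        exact ⟨t, ht⟩
      · exact absurd rfl hs
    · intro x hx t h1
      rw [mem_filter] at h1
      exact hne x hx t h1.2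

/-- The exponents `mn` belong to the level. -/
theorem mn_mem (hβ : IsB φ β) (hvz : Function.Injective vz) (hk : k + 1 = M)
    (α : Fin M ↪o Fin q) (w : Slot k M → Fin c) :
    mn (vr φ vz) α w ∈ Pool.Agent.V7.Ex β (2 * M - 1) k := by
  rw [Pool.Agent.V7.mem_Ex]
  constructor
  · unfold mn
    rw [sum_ind, card_pS (vr_inj φ hvz), card_univ, Fintype.card_sum, Fintype.card_fin,
      Fintype.card_fin]
    omega
  · intro i hi
    refine ⟨vr φ vz (emα k α (Sum.inl ⟨i, hi⟩), w (Sum.inl ⟨i, hi⟩)), hβ.1 (⟨i, hi⟩, _), ?_⟩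
    unfold mn ind
    rw [if_pos (mem_pS.2 ⟨_, mem_univ _, rfl⟩)]
    exact one_ne_zero

/-- The exponent of the last variables. -/
def zx (vz : Fin q × Fin c → Fin m) (α : Fin M ↪o Fin q) (u : Fin M → Fin c) : Fin m → ℕ :=
  ind (univ.image fun h => vz (α h, u h))

theorem sum_zx (hvz : Function.Injective vz) (α : Fin M ↪o Fin q) (u : Fin M → Fin c) :
    ∑ t, zx vz α u t = M := by
  unfold zx
  rw [sum_ind, card_image_of_injective, card_univ, Fintype.card_fin]
  intro h h' e
  have h1 := congrArg Prod.fst (hvz e)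
  exact α.injective h1

theorem sl_zx (φ : (Fin k × Fin c) ⊕ Fin m ≃ ν) (vz : Fin q × Fin c → Fin m)
    (α : Fin M ↪o Fin q) (s : Fin k → Fin c) (u : Fin M → Fin c) :
    Pool.Agent.V7.Top.sl φ s (zx vz α u) = mn (vr φ vz) α (Sum.elim s u) := by
  classical
  funext x
  obtain ⟨x, rfl⟩ := φ.surjective x
  rcases x with ⟨i, t⟩ | t
  · rw [Pool.Agent.V7.Top.sl_inl]
    unfold mn ind
    by_cases h : t = s i
    · rw [if_pos h, if_pos]
      rw [mem_pS]
      refine ⟨Sum.inl i, mem_univ _, ?_⟩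
      show φ (Sum.inl (i, s i)) = φ (Sum.inl (i, t))
      rw [h]
    · rw [if_neg h, if_neg]
      intro h1
      obtain ⟨y, _, hy⟩ := mem_pS.1 h1
      rcases y with i' | h'
      · have h2 := Sum.inl_injective (φ.injective hy)
        rw [Prod.mk.injEq] at h2
        obtain ⟨h3, h4⟩ := h2
        have h5 : i' = i := h3
        subst h5
        exact h h4.symm
      · exact absurd (φ.injective hy) Sum.inr_ne_inl
  · rw [Pool.Agent.V7.Top.sl_inr]
    unfold zx mn ind
    congr 1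
    rw [mem_pS, mem_image, eq_iff_iff]
    constructor
    · rintro ⟨h, _, h1⟩
      exact ⟨Sum.inr h, mem_univ _, congrArg (fun z => φ (Sum.inr z)) h1⟩
    · rintro ⟨y, _, hy⟩
      rcases y with i' | h'
      · exact absurd (φ.injective hy) Sum.inl_ne_inr
      · exact ⟨h', mem_univ _, Sum.inr_injective (φ.injective hy)⟩

end Pool.Agent.V7.BE
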