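import Pool.Agent.V7.BE.Dir

/-!
# V7, block BETA, module Rest: tensors which do not depend on one slot
-/

namespace Pool.Agent.V7.BE

open Finset Module Pool.Agent.V7

variable {ι : Type} [Fintype ι] [DecidableEq ι] {c : ℕ}

/-- The embedding of the remaining slots. -/
abbrev em (i : ι) : {j : ι // j ≠ i} ↪ ι := Function.Embedding.subtype _

/-- Restriction of an index to the remaining slots. -/
def rs (i : ι) (e : ι → Fin c) : {j : ι // j ≠ i} → Fin c := fun j => e j.1

/-- Extension of an index by the value `b` in the slot `i`. -/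
def ex (i : ι) (b : Fin c) (e : {j : ι // j ≠ i} → Fin c) : ι → Fin c :=
  fun j => if h : j = i then b else e ⟨j, h⟩

theorem rs_ex (i : ι) (b : Fin c) (e : {j : ι // j ≠ i} → Fin c) : rs i (ex i b e) = e := by
  funext j
  unfold rs ex
  rw [dif_neg j.2]

theorem ex_rs (i : ι) (b : Fin c) (e : ι → Fin c) : ex i b (rs i e) = Function.update e i b := by
  funext j
  unfold rs ex
  by_cases h : j = i
  · subst h
    simp
  · rw [dif_neg h, Function.update_of_ne h]

/-- The tensor on the remaining slots. -/
def down (i : ι) (b : Fin c) (H : (ι → Fin c) → ℂ) : ({j : ι // j ≠ i} → Fin c) → ℂ :=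
  fun e => H (ex i b e)

theorem down_apply (i : ι) (b : Fin c) {H : (ι → Fin c) → ℂ}
    (hH : ∀ e b', H (Function.update e i b') = H e) (e : ι → Fin c) :
    down i b H (rs i e) = H e := by
  unfold down
  rw [ex_rs, hH]

/-- Contraction in the remaining slots. -/
theorem ctr_down (i : ι) (b : Fin c) {H : (ι → Fin c) → ℂ}
    (hH : ∀ e b', H (Function.update e i b') = H e) (S : Finset {j : ι // j ≠ i})
    (q : ι × Fin c → ℂ) (p : {j : ι // j ≠ i} × Fin c → ℂ)
    (hpq : ∀ j x, p (j, x) = q (j.1, x)) (w : ι → Fin c) :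
    ctr (S.map (em i)) q H w = ctr S p (down i b H) (rs i w) := by
  rw [ctr_eq, ctr_eq]
  refine sum_nbij' (fun e => rs i e) (fun e => ex i (w i) e) ?_ ?_ ?_ ?_ ?_
  · intro e he
    rw [mem_filter] at he ⊢
    refine ⟨mem_univ _, fun j hj => ?_⟩
    refine he.2 j.1 fun h => hj ?_
    rw [mem_map] at h
    obtain ⟨j', hj', h2⟩ := h
    rwa [show j' = j from Subtype.ext h2] at hj'
  · intro e he
    rw [mem_filter] at he ⊢
    refine ⟨mem_univ _, fun j hj => ?_⟩
    unfold ex
    by_cases h : j = i
    · rw [dif_pos h, h]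
    · rw [dif_neg h]
      refine he.2 ⟨j, h⟩ fun h2 => hj ?_
      exact mem_map.2 ⟨⟨j, h⟩, h2, rfl⟩
  · intro e he
    rw [mem_filter] at he
    have h1 : e i = w i := by
      refine he.2 i fun h => ?_
      rw [mem_map] at h
      obtain ⟨j', _, h2⟩ := h
      exact j'.2 h2
    rw [ex_rs, ← h1, Function.update_eq_self]
  · intro e _
    exact rs_ex i _ e
  · intro e _
    rw [down_apply i b hH, prod_map]
    congr 1
    refine prod_congr rfl fun j _ => ?_
    rw [hpq]
    rfl

theorem mem_map_em (i : ι) (S : Finset {j : ι // j ≠ i}) : i ∉ S.map (em i) := by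
  intro h
  rw [mem_map] at h
  obtain ⟨j', _, h2⟩ := h
  exact j'.2 h2

/-- The set in the remaining slots. -/
def sub (i : ι) (S : Finset ι) : Finset {j : ι // j ≠ i} := S.subtype fun j => j ≠ i

theorem sub_map (i : ι) (S : Finset {j : ι // j ≠ i}) : sub i (S.map (em i)) = S := by
  ext j
  unfold sub
  rw [mem_subtype, mem_map]
  constructor
  · rintro ⟨j', hj', h2⟩
    rwa [show j' = j from Subtype.ext h2] at hj'
  · intro h
    exact ⟨j, h, rfl⟩

theorem sub_insert (i : ι) (S : Finset {j : ι // j ≠ i}) : sub i (insert i (S.map (em i))) = S := by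
  ext j
  unfold sub
  rw [mem_subtype, mem_insert, mem_map]
  constructor
  · rintro (h | ⟨j', hj', h2⟩)
    · exact absurd h j.2
    · rwa [show j' = j from Subtype.ext h2] at hj'
  · intro h
    exact Or.inr ⟨j, h, rfl⟩

/-- `ctr` does not depend on the index inside `S`. -/
theorem ctr_congr (S : Finset ι) (q : ι × Fin c → ℂ) (F : (ι → Fin c) → ℂ) {w w' : ι → Fin c}
    (h : ∀ j, j ∉ S → w j = w' j) : ctr S q F w = ctr S q F w' := by
  rw [ctr_eq, ctr_eq]
  congr 1
  ext e
  rw [mem_filter, mem_filter]
  constructor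
  · rintro ⟨h1, h2⟩
    exact ⟨h1, fun j hj => (h2 j hj).trans (h j hj)⟩
  · rintro ⟨h1, h2⟩
    exact ⟨h1, fun j hj => (h2 j hj).trans (h j hj).symm⟩

section slots

variable {k M : ℕ}

theorem notMem_S0 (j : Fin k) : (Sum.inl j : Slot k M) ∉ S0 k M := by
  unfold S0
  simp

theorem mem_S0 (j : Fin M) : (Sum.inr j : Slot k M) ∈ S0 k M := by
  unfold S0
  simp

theorem card_S0 : (S0 k M).card = M := by
  have : S0 k M = univ.map (Function.Embedding.inr : Fin M ↪ Slot k M) := by
    ext j
    rcases j with j | j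
    · simp [S0]
    · simp [S0]
  rw [this, card_map, card_univ, Fintype.card_fin]

/-- Contraction with a point of kind `S₀` in terms of the `z`-indices. -/
theorem ctr_S0 (q : Slot k M × Fin c → ℂ) (F : (Slot k M → Fin c) → ℂ) (s : Fin k → Fin c)
    (u₀ : Fin M → Fin c) :
    ctr (S0 k M) q F (Sum.elim s u₀) =
      ∑ u : Fin M → Fin c, (∏ j, q (Sum.inr j, u j)) * F (Sum.elim s u) := by
  rw [ctr_eq]
  refine sum_nbij' (fun e j => e (Sum.inr j)) (fun u => Sum.elim s u) ?_ ?_ ?_ ?_ ?_
  · intro e _
    exact mem_univ _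
  · intro u _
    rw [mem_filter]
    refine ⟨mem_univ _, ?_⟩
    rintro (j | j) hj
    · rfl
    · exact absurd (mem_S0 j) hj
  · intro e he
    rw [mem_filter] at he
    funext j
    rcases j with j | j
    · exact (he.2 (Sum.inl j) (notMem_S0 j)).symm
    · rfl
  · intro u _
    rfl
  · intro e he
    rw [mem_filter] at he
    have e1 : e = Sum.elim s fun j => e (Sum.inr j) := by
      funext j
      rcases j with j | j
      · exact he.2 (Sum.inl j) (notMem_S0 j)
      · rfl
    have e2 : ∏ j ∈ S0 k M, q (j, e j) = ∏ j : Fin M, q (Sum.inr j, e (Sum.inr j)) := by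
      have : S0 k M = univ.map (Function.Embedding.inr : Fin M ↪ Slot k M) := by
        ext j
        rcases j with j | j
        · simp [S0]
        · simp [S0]
      rw [this, prod_map]
      rfl
    rw [e2, ← e1]

/-- The `E`-part of a contraction in the slot `inl i`. -/
theorem Dk_elim (i : Fin k) (y : Fin c → ℂ) (G : (Slot k M → Fin c) → ℂ) (u : Fin M → Fin c) :
    (fun s => Dk (Sum.inl i) y G (Sum.elim s u)) = Dk i y (fun s => G (Sum.elim s u)) := by
  funext s
  rw [Dk_apply, Dk_apply]
  refine sum_congr rfl fun b _ => ?_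
  congr 2
  funext j
  rcases j with j | j
  · by_cases h : j = i
    · subst h
      simp
    · rw [Function.update_of_ne (by simpa using h)]
      simp [Function.update_of_ne h]
  · rw [Function.update_of_ne (by simp)]
    rfl

end slots

end Pool.Agent.V7.BE
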