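import Pool.Agent.V7.BE.Form
import Pool.Agent.V7.Cls

/-!
# V7, block BETA, module Tau: the points of a configuration of the class `Cls0` and the block points

`exists_tau`: an injection of the block points `(S, t)`, `S` an `M`-set of the blocks which contains
one of the first `k` blocks, `t < l`, into the points of the configuration, compatible with the types.
`at_p1`: the bound at the position which it gives.
-/

set_option autoImplicit false
set_option linter.unusedSectionVars false

namespace Pool.Agent.V7.BE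

open Finset Module Pool.Agent.H51.TB Pool.Agent.V7
open Pool.Agent.V7.Top (IsB SF)

variable {k M c m q : ℕ}

theorem Gdk.inj {I I' : Finset ℕ} {κ : Kd} (h : Gdk M k I κ) (h' : Gdk M k I' κ) : I = I' := by
  rcases h with rfl | ⟨i, _, rfl⟩
  · rcases h' with h' | ⟨i', _, h'⟩
    · injection h'
    · injection h'
  · rcases h' with h' | ⟨i', _, h'⟩
    · injection h'
    · injection h'

open Classical in
theorem tot_le {κ : Type} [Fintype κ] (rest : κ → Kd) (I : Finset ℕ) :
    tot M k (fun τ => ((univ : Finset κ).val.map rest).count τ) I ≤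
      Fintype.card {i : κ // Gdk M k I (rest i)} := by
  set K : Finset Kd := insert (Kd.ord M I) ((range k).image fun i => Kd.sw i I) with hK
  have hcount : ∀ τ : Kd, ((univ : Finset κ).val.map rest).count τ =
      (univ.filter fun i => rest i = τ).card := by
    intro τ
    rw [Multiset.count_map, ← Finset.filter_val, Finset.card_val]
    congr 1
    ext i
    rw [mem_filter, mem_filter]
    exact and_congr_right fun _ => eq_comm
  have hGK : ∀ κ : Kd, Gdk M k I κ ↔ κ ∈ K := by
    intro κ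
    rw [hK, mem_insert, mem_image]
    constructor
    · rintro (h | ⟨i, hi, h⟩)
      · exact Or.inl h
      · exact Or.inr ⟨i, mem_range.2 hi, h.symm⟩
    · rintro (h | ⟨i, hi, h⟩)
      · exact Or.inl h
      · exact Or.inr ⟨i, mem_range.1 hi, h.symm⟩
  have h1 : tot M k (fun τ => ((univ : Finset κ).val.map rest).count τ) I =
      ∑ τ ∈ K, (univ.filter fun i => rest i = τ).card := by
    unfold tot
    rw [hK, sum_insert, sum_image]
    · simp only [hcount]
    · intro a _ b _ h
      injection h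
    · intro h
      obtain ⟨i, _, hi⟩ := mem_image.1 h
      injection hi
  rw [h1, Fintype.card_subtype]
  have h2 := Finset.card_eq_sum_card_fiberwise (f := rest)
    (s := univ.filter fun i => Gdk M k I (rest i)) (t := K) (fun i hi => by
      rw [mem_coe, mem_filter] at hi
      exact (hGK _).1 hi.2)
  rw [h2]
  refine sum_le_sum fun τ hτ => card_le_card fun i hi => ?_
  rw [mem_filter] at hi
  rw [mem_filter, mem_filter]
  refine ⟨⟨mem_univ i, ?_⟩, hi.2⟩
  rw [hi.2]
  exact (hGK τ).2 hτ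

theorem typ_card {S : Finset (Fin k ⊕ Fin q)} :
    (typ S).card + S.toLeft.card = k := by
  classical
  unfold typ
  rw [card_map]
  have h1 : (univ.filter fun i : Fin k => Sum.inl i ∉ S) = (S.toLeft)ᶜ := by
    ext i
    rw [mem_filter, mem_compl, mem_toLeft]
    exact ⟨fun h => h.2, fun h => ⟨mem_univ i, h⟩⟩
  rw [h1, card_compl, Fintype.card_fin]
  have h2 : S.toLeft.card ≤ k := by
    have := card_le_univ S.toLeft
    rwa [Fintype.card_fin] at this
  omega

open Classical in
theorem card_typ (hk : k + 1 = M) (I : Finset ℕ) :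
    Fintype.card {S : Finset (Fin k ⊕ Fin q) // S.card = M ∧ typ S = I} ≤
      q.choose (I.card + 1) := by
  have h1 : q.choose (I.card + 1) = Fintype.card {s : Finset (Fin q) // s.card = I.card + 1} := by
    rw [Fintype.card_finset_len, Fintype.card_fin]
  rw [h1]
  have hc : ∀ S : Finset (Fin k ⊕ Fin q), S.card = M → typ S = I →
      S.toRight.card = I.card + 1 := by
    intro S h2 h3
    have h4 := typ_card (S := S)
    have h5 := card_toLeft_add_card_toRight (u := S)
    rw [h3] at h4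
    omega
  refine Fintype.card_le_of_injective
    (fun S : {S : Finset (Fin k ⊕ Fin q) // S.card = M ∧ typ S = I} =>
      (⟨S.1.toRight, hc S.1 S.2.1 S.2.2⟩ : {s : Finset (Fin q) // s.card = I.card + 1})) ?_
  rintro ⟨S, h2, h3⟩ ⟨S', h2', h3'⟩ h
  have h4 : S.toRight = S'.toRight := congrArg Subtype.val h
  apply Subtype.ext
  ext x
  rcases x with i | i
  · rw [← notMem_typ, ← notMem_typ, h3, h3']
  · rw [← mem_toRight, ← mem_toRight, h4]

/-- The block points. -/
abbrev Zt (k q M l : ℕ) : Type :=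
  {S : Finset (Fin k ⊕ Fin q) // S.card = M ∧ ∃ i, Sum.inl i ∈ S} × Fin l

theorem exists_tau {κ : Type} [Fintype κ] (rest : κ → Kd) (hk : k + 1 = M) (l : ℕ)
    (hnum : ∀ I, I ⊆ range k → I ≠ range k → l * q.choose (I.card + 1) ≤
      tot M k (fun τ => ((univ : Finset κ).val.map rest).count τ) I) :
    ∃ τ : Zt k q M l → κ, Function.Injective τ ∧ ∀ z, Gdk M k (typ z.1.1) (rest (τ z)) := by
  classical
  have h1 : ∀ I, I ⊆ range k → I ≠ range k →
      Nonempty ({z : Zt k q M l // typ z.1.1 = I} ↪ {i : κ // Gdk M k I (rest i)}) := by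
    intro I hI hI'
    refine Function.Embedding.nonempty_of_card_le ?_
    refine le_trans ?_ ((hnum I hI hI').trans (tot_le rest I))
    have h2 : Fintype.card {z : Zt k q M l // typ z.1.1 = I} ≤
        Fintype.card ({S : Finset (Fin k ⊕ Fin q) // S.card = M ∧ typ S = I} × Fin l) := by
      refine Fintype.card_le_of_injective
        (fun z => (⟨z.1.1.1, z.1.1.2.1, z.2⟩, z.1.2)) ?_
      intro z z' h
      rw [Prod.mk.injEq, Subtype.mk.injEq] at h
      exact Subtype.ext (Prod.ext (Subtype.ext h.1) h.2)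
    rw [Fintype.card_prod, Fintype.card_fin] at h2
    refine h2.trans ?_
    rw [mul_comm l]
    exact Nat.mul_le_mul_right l (card_typ hk I)
  have hs : ∀ S : Finset (Fin k ⊕ Fin q), typ S ⊆ range k := fun S j hj =>
    mem_range.2 (typ_lt hj)
  have hs' : ∀ z : Zt k q M l, typ z.1.1 ≠ range k := by
    intro z h
    obtain ⟨i, hi⟩ := z.1.2.2
    have h2 := notMem_typ.2 hi
    rw [h] at h2
    exact h2 (mem_range.2 i.2)
  let g := fun (I : Finset ℕ) (h : I ⊆ range k) (h' : I ≠ range k) => (h1 I h h').some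
  let τ : Zt k q M l → κ := fun z => (g (typ z.1.1) (hs _) (hs' z) ⟨z, rfl⟩).1
  refine ⟨τ, ?_, fun z => (g (typ z.1.1) (hs _) (hs' z) ⟨z, rfl⟩).2⟩
  intro z z' h
  have h2 : typ z.1.1 = typ z'.1.1 := by
    have h3 := (g (typ z.1.1) (hs _) (hs' z) ⟨z, rfl⟩).2
    have h4 := (g (typ z'.1.1) (hs _) (hs' z') ⟨z', rfl⟩).2
    have h5 : (g (typ z.1.1) (hs _) (hs' z) ⟨z, rfl⟩).1 =
      (g (typ z'.1.1) (hs _) (hs' z') ⟨z', rfl⟩).1 := h
    rw [← h5] at h4
    exact h3.inj h4
  have h3 : ∀ (I : Finset ℕ) (hI : I ⊆ range k) (hI' : I ≠ range k) (e : typ z'.1.1 = I),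
      (g (typ z'.1.1) (hs _) (hs' z') ⟨z', rfl⟩).1 = (g I hI hI' ⟨z', e⟩).1 := by
    rintro I hI hI' rfl
    rfl
  have h4 : (g (typ z.1.1) (hs _) (hs' z) ⟨z, rfl⟩).1 =
      (g (typ z.1.1) (hs _) (hs' z) ⟨z', h2.symm⟩).1 := by
    rw [← h3 (typ z.1.1) (hs _) (hs' z) h2.symm]
    exact h
  have h5 := (g (typ z.1.1) (hs _) (hs' z)).injective (Subtype.ext h4)
  exact congrArg Subtype.val h5

theorem exists_inl {S : Finset (Slot k M)} (hS : S.card = M) (h0 : S ≠ S0 k M) :
    ∃ i, (Sum.inl i : Slot k M) ∈ S := by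
  by_contra hcon
  push Not at hcon
  apply h0
  refine eq_of_subset_of_card_le (fun x hx => ?_) (by rw [card_S0, hS])
  unfold S0
  rw [mem_filter]
  refine ⟨mem_univ x, ?_⟩
  rcases x with i | h
  · exact absurd hx (hcon i)
  · rfl

variable {ν : Type} [Fintype ν] [DecidableEq ν]
variable {φ : (Fin k × Fin c) ⊕ Fin m ≃ ν} {vz : Fin q × Fin c → Fin m} {β : ν → ℕ}

theorem at_p1 (hβ : IsB φ β) (hvz : Function.Injective vz) (hk : k + 1 = M) (hM : 2 ≤ M)
    {κ : Type} [Fintype κ] (rest : κ → Kd) (hok : ∀ i, (rest i).Ok M k) (Ω : PtsQ k M c q)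
    (τ : Zt k q M (lam M c) → κ) (hτ : Function.Injective τ)
    (hτ' : ∀ z, Gdk M k (typ z.1.1) (rest (τ z))) :
    ∃ p₁ : κ → ν ⊕ ν → ℂ, ∀ F : Submodule ℂ ((Fin k → Fin c) → ℂ),
      finrank ℂ (SF φ ((LS M β k).V rest p₁) F) + c ^ (k + M) * q.choose M ≤
        (Pool.Agent.V7.Ex β (2 * M - 1) k).card +
          ∑ α : Fin M ↪o Fin q, finrank ℂ (KE (res Ω α) F) := by
  classical
  let p₁ : κ → ν ⊕ ν → ℂ := Function.extend τ
    (fun z => posK β (ptS (vr φ vz) z.1.1 (Ω z.1.1 z.2)) (rest (τ z))) 0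
  refine ⟨p₁, fun F => fin_bound hβ hvz hk _ Ω ?_ F⟩
  intro f hf hf' α S hS hS0 t w
  obtain ⟨i, hi⟩ := exists_inl hS hS0
  let z : Zt k q M (lam M c) := (⟨S.map (emα k α), by rw [card_map, hS],
    i, mem_map_of_mem (emα k α) hi⟩, t)
  rw [mem_LSA] at hf
  have h1 := hf (τ z)
  have h2 : p₁ (τ z) = posK β (ptS (vr φ vz) z.1.1 (Ω z.1.1 z.2)) (rest (τ z)) :=
    hτ.extend_apply _ _ _
  rw [h2] at h1
  exact ctr_sat hβ hvz hk hM (fun α w => mn_mem hβ hvz hk α w) hf' α hS _ (hτ' z) (hok _) h1 w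

end Pool.Agent.V7.BE
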