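import Pool.Agent.V7.BE.Rest

/-!
# V7, block BETA, module Wts: weights of the slices, distribution of the kinds
-/

namespace Pool.Agent.V7.BE

open Finset Module Pool.Agent.V7

/-- `W = 2 binom(2M-1, M)`. -/
def Wt (M : ℕ) : ℕ := 2 * (2 * M - 1).choose M

/-- The number of kinds `S'` of pure slices. -/
def K1 (M : ℕ) : ℕ := (2 * M - 2).choose (M - 1)

/-- Weights of a slice: `M`-subsets get `2` (`S₀`: `z`), `T` (of cardinality `M - 1`) gets `x`. -/
def wS {ρ : Type} [DecidableEq ρ] (M : ℕ) (S₀ T : Finset ρ) (x z : ℕ) (S : Finset ρ) : ℕ :=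
  if S = S₀ then z else if S.card = M then 2 else if S = T then x else 0

theorem sum_wS {ρ : Type} [Fintype ρ] [DecidableEq ρ] {M : ℕ} (hM : 2 ≤ M)
    (hρ : Fintype.card ρ = 2 * M - 2) {S₀ T : Finset ρ} (h0 : S₀.card = M) (hT : T.card = M - 1)
    {x z : ℕ} (hxz : x + z = 2 * K1 M + 2) : ∑ S, wS M S₀ T x z S = Wt M := by
  classical
  have h1 : ∑ S, wS M S₀ T x z S =
      ∑ S, ((if S = S₀ then z else 0) + (if S.card = M ∧ S ≠ S₀ then 2 else 0) +
        (if S = T then x else 0)) := by
    refine sum_congr rfl fun S _ => ?_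
    unfold wS
    by_cases hS : S = S₀
    · subst hS
      have : S ≠ T := fun h => by
        rw [h] at h0
        omega
      simp [this]
    · by_cases hc : S.card = M
      · have : S ≠ T := fun h => by
          rw [h] at hc
          omega
        simp [hS, hc, this]
      · simp [hS, hc]
  rw [h1, sum_add_distrib, sum_add_distrib, sum_ite_eq' univ S₀, if_pos (mem_univ _),
    sum_ite_eq' univ T, if_pos (mem_univ _)]
  have h2 : ∑ S : Finset ρ, (if S.card = M ∧ S ≠ S₀ then 2 else 0) =
      2 * ((2 * M - 2).choose M - 1) := by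
    rw [← sum_filter, sum_const, smul_eq_mul, mul_comm]
    congr 1
    have : (univ.filter fun S : Finset ρ => S.card = M ∧ S ≠ S₀) =
        ((univ : Finset ρ).powersetCard M).erase S₀ := by
      ext S
      simp [mem_powersetCard, and_comm]
    rw [this, card_erase_of_mem, card_powersetCard, card_univ, hρ]
    rw [mem_powersetCard]
    exact ⟨subset_univ _, h0⟩
  rw [h2]
  have h3 : (2 * M - 1).choose M = (2 * M - 2).choose (M - 1) + (2 * M - 2).choose M := by
    obtain ⟨m, rfl⟩ : ∃ m, M = m + 2 := ⟨M - 2, by omega⟩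
    have e1 : 2 * (m + 2) - 1 = (2 * m + 2) + 1 := by omega
    have e2 : 2 * (m + 2) - 2 = 2 * m + 2 := by omega
    have e3 : m + 2 - 1 = m + 1 := by omega
    rw [e1, e2, e3]
    exact Nat.choose_succ_succ (2 * m + 2) (m + 1)
  have h4 : 0 < (2 * M - 2).choose M := Nat.choose_pos (by omega)
  unfold Wt
  rw [h3]
  unfold K1 at hxz
  omega

theorem inter_wS {ρ : Type} [Fintype ρ] [DecidableEq ρ] {M : ℕ} (hM : 2 ≤ M)
    (hρ : Fintype.card ρ = 2 * M - 2) {S₀ T : Finset ρ} (h0 : S₀.card = M) (hT : T.card = M - 1)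
    {x z : ℕ} : Inter (wS M S₀ T x z) := by
  intro S S' hS hS'
  left
  have key : ∀ S, wS M S₀ T x z S ≠ 0 → S.card = M ∨ S = T := by
    intro S hS
    unfold wS at hS
    split_ifs at hS with h1 h2 h3
    · left
      rw [h1, h0]
    · left
      exact h2
    · right
      exact h3
    · exact absurd rfl hS
  have hcard : ∀ S, wS M S₀ T x z S ≠ 0 → M - 1 ≤ S.card := by
    intro S hS
    rcases key S hS with h | h
    · omega
    · rw [h, hT]
  by_contra hcon
  rw [not_nonempty_iff_eq_empty, ← disjoint_iff_inter_eq_empty] at hcon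
  have h1 := card_union_of_disjoint hcon
  have h2 : (S ∪ S').card ≤ 2 * M - 2 := by
    rw [← hρ, ← card_univ]
    exact card_le_card (subset_univ _)
  have h3 := hcard S hS
  have h4 := hcard S' hS'
  rcases key S hS with h | h
  · omega
  · rcases key S' hS' with h' | h'
    · omega
    · rw [h, h', disjoint_self_iff_empty] at hcon
      rw [hcon, card_empty] at hT
      omega

/-- Distribution of the slices `Fin c` to the kinds `X`, equally often, with `a ≠ a'` of the same
kind. -/
theorem exists_dist {X : Type} [Fintype X] [DecidableEq X] {c m : ℕ} (hc : c = Fintype.card X * m)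
    (hm : 2 ≤ m) (a a' : Fin c) (ha : a ≠ a') :
    ∃ σ : Fin c → X, σ a = σ a' ∧ ∀ x, (univ.filter fun b => σ b = x).card = m := by
  classical
  let e : Fin c ≃ X × Fin m := Fintype.equivOfCardEq (by
    rw [Fintype.card_fin, Fintype.card_prod, Fintype.card_fin, hc])
  obtain ⟨j, hj⟩ : ∃ j : Fin m, j ≠ (e a).2 := by
    have : Nontrivial (Fin m) := Fin.nontrivial_iff_two_le.2 hm
    exact exists_ne _
  let z : X × Fin m := ((e a).1, j)
  have hz : z ≠ e a := by
    intro h
    exact hj (congrArg Prod.snd h)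
  let e' : Fin c ≃ X × Fin m := e.trans (Equiv.swap (e a') z)
  have h1 : e' a = e a := by
    show Equiv.swap (e a') z (e a) = e a
    refine Equiv.swap_apply_of_ne_of_ne ?_ hz.symm
    intro h
    exact ha (e.injective h)
  have h2 : e' a' = z := by
    show Equiv.swap (e a') z (e a') = z
    exact Equiv.swap_apply_left _ _
  refine ⟨fun b => (e' b).1, ?_, fun x => ?_⟩
  · show (e' a).1 = (e' a').1
    rw [h1, h2]
  · have : (univ.filter fun b => (e' b).1 = x) = univ.map
        ((⟨fun i : Fin m => e'.symm (x, i), fun i i' h => by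
          have := e'.symm.injective h
          exact congrArg Prod.snd this⟩ : Fin m ↪ Fin c)) := by
      ext b
      rw [mem_filter, mem_map]
      constructor
      · rintro ⟨_, h⟩
        refine ⟨(e' b).2, mem_univ _, ?_⟩
        show e'.symm (x, (e' b).2) = b
        rw [← h]
        exact e'.symm_apply_apply b
      · rintro ⟨i, _, rfl⟩
        refine ⟨mem_univ _, ?_⟩
        show (e' (e'.symm (x, i))).1 = x
        rw [e'.apply_symm_apply]
    rw [this, card_map, card_univ, Fintype.card_fin]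

/-- The arithmetic of the numbers of points. -/
theorem arith {M c : ℕ} (hM : 2 ≤ M) (hc : 0 < c) (hdiv : (Wt M).factorial ∣ c) :
    ∃ v₀ u₀ m : ℕ, 0 < u₀ ∧ 2 ≤ m ∧ c = K1 M * m ∧ c ^ (M - 1) = Wt M * v₀ ∧
      c ^ M = Wt M * u₀ ∧ lam M c = 2 * u₀ ∧ m * (2 * K1 M * v₀) = lam M c := by
  have hC : 0 < (2 * M - 1).choose M := Nat.choose_pos (by omega)
  have hW : 0 < Wt M := by
    unfold Wt
    omega
  have hWc : Wt M ∣ c := dvd_trans (Nat.dvd_factorial hW le_rfl) hdiv
  have hK : 0 < K1 M := Nat.choose_pos (by omega)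
  have hKC : K1 M ≤ (2 * M - 1).choose M := by
    unfold K1
    obtain ⟨m, rfl⟩ : ∃ m, M = m + 2 := ⟨M - 2, by omega⟩
    have e1 : 2 * (m + 2) - 1 = (2 * m + 2) + 1 := by omega
    have e2 : 2 * (m + 2) - 2 = 2 * m + 2 := by omega
    have e3 : m + 2 - 1 = m + 1 := by omega
    rw [e1, e2, e3, Nat.choose_succ_succ (2 * m + 2) (m + 1)]
    omega
  have hKW : 2 * K1 M ≤ Wt M := by
    unfold Wt
    omega
  have hKc : 2 * K1 M ∣ c := dvd_trans (Nat.dvd_factorial (by omega) hKW) hdiv
  obtain ⟨m', hm'⟩ := hKc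
  have hm'0 : 0 < m' := by
    rcases Nat.eq_zero_or_pos m' with h | h
    · rw [h, mul_zero] at hm'
      omega
    · exact h
  obtain ⟨v₀, hv₀⟩ : Wt M ∣ c ^ (M - 1) := dvd_pow hWc (by omega)
  have hpow : c ^ M = c * c ^ (M - 1) := by
    obtain ⟨m, rfl⟩ : ∃ m, M = m + 1 := ⟨M - 1, by omega⟩
    rw [Nat.add_sub_cancel, pow_succ, mul_comm]
  have hu : c ^ M = Wt M * (c * v₀) := by
    rw [hpow, hv₀]
    ring
  have hv0 : 0 < v₀ := by
    rcases Nat.eq_zero_or_pos v₀ with h | h
    · rw [h, mul_zero] at hv₀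
      have := pow_pos hc (M - 1)
      omega
    · exact h
  have hlam : lam M c = 2 * (c * v₀) := by
    unfold lam
    rw [hu]
    unfold Wt
    rw [show 2 * (2 * M - 1).choose M * (c * v₀) = (2 * M - 1).choose M * (2 * (c * v₀)) by ring]
    exact Nat.mul_div_cancel_left _ hC
  refine ⟨v₀, c * v₀, 2 * m', Nat.mul_pos hc hv0, by omega, ?_, hv₀, hu, hlam, ?_⟩
  · rw [hm']
    ring
  · rw [hlam]
    calc 2 * m' * (2 * K1 M * v₀) = 2 * ((2 * K1 M * m') * v₀) := by ring
      _ = 2 * (c * v₀) := by rw [← hm']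

end Pool.Agent.V7.BE
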